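import Pool.Agent.NDR.Defs

/-!
# Squad NDR: operators over a commutative ring, the cone coordinates of the resonance step

Exponents `e : τ → ℤ` (`τ = Option σ` in the application, `none` is the coordinate `z`), `A` a
finite set of exponents, `c` their coefficients in a commutative ring `R`, `t : τ → R` the shifts.
A monomial `e` stands for `x^e z^(e none - s) dlog x dlog z` (LOG exponents).
-/

set_option autoImplicit false

namespace Pool.Agent.NDR

open Finset Pool.Agent.Helper30_Simp

section op

variable {τ : Type} {R : Type} [CommRing R]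

/-- `A_v = ∑_a c_a a_v x^a` -/
noncomputable def opA (A : Finset (τ → ℤ)) (c : (τ → ℤ) → R) (v : τ) (h : (τ → ℤ) →₀ R) :
    (τ → ℤ) →₀ R :=
  h.sum fun e d => ∑ a ∈ A, Finsupp.single (e + a) (c a * ((a v : ℤ) : R) * d)

/-- the diagonal operator `e ↦ (e_v + t_v) e` -/
noncomputable def opT (t : τ → R) (v : τ) (h : (τ → ℤ) →₀ R) : (τ → ℤ) →₀ R :=
  h.sum fun e d => Finsupp.single e ((((e v : ℤ) : R) + t v) * d)

/-- `B_v = A_v + (e_v + t_v)` -/
noncomputable def opB (A : Finset (τ → ℤ)) (c : (τ → ℤ) → R) (t : τ → R) (v : τ)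
    (h : (τ → ℤ) →₀ R) : (τ → ℤ) →₀ R :=
  opA A c v h + opT t v h

end op

section hat

variable {σ : Type}

/-- the exponent of `x^α z` -/
def ex (α : σ →₀ ℕ) : Option σ → ℤ
  | none => 1
  | some i => ((α i : ℕ) : ℤ)

/-- the coordinates `I` and `z` -/
def ih (I : Finset σ) : Finset (Option σ) := Finset.insertNone I

/-- `f' = f + ∑_(i ∈ I) c_i x_i^L` -/
noncomputable def fpr {k K : Type} [Field k] [Field K] [Algebra k K] (f : MvPolynomial σ k)
    (I : Finset σ) (c : σ → K) (L : ℕ) : MvPolynomial σ K :=
  MvPolynomial.map (algebraMap k K) f + ∑ i ∈ I, MvPolynomial.C (c i) * MvPolynomial.X i ^ L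

/-- `z f` as a Laurent polynomial in `x, z` -/
noncomputable def hat {K : Type} [Field K] (f : MvPolynomial σ K) : (Option σ → ℤ) →₀ K :=
  f.support.sum fun α => Finsupp.single (ex α) (MvPolynomial.coeff α f)

/-- the exponents of `z f` -/
noncomputable def hatS {K : Type} [Field K] (f : MvPolynomial σ K) : Finset (Option σ → ℤ) := by
  classical
  exact f.support.image ex

/-- the coefficients of `z f`, in a `K`-algebra -/
noncomputable def hatC {K : Type} [Field K] (R : Type) [CommRing R] [Algebra K R]
    (f : MvPolynomial σ K) (a : Option σ → ℤ) : R :=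
  algebraMap K R (hat f a)

/-- the shifts: `0` for `x_i`, `-s` for `z` -/
def shf {R : Type} [CommRing R] (s : R) : Option σ → R
  | none => -s
  | some _ => 0

/-- the log exponent of the form `dx_I` (`1` on `I`, `0` elsewhere) -/
noncomputable def one1 (I : Finset σ) : Option σ → ℤ := by
  classical
  exact fun v => v.elim 0 fun i => if i ∈ I then 1 else 0

end hat

end Pool.Agent.NDR
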