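import Pool.Agent.NDR.OpDefs

/-!
# Squad NDR (problem MP_b48657_ag), block R: rules for the operators `opA`, `opB`

All facts about `opA`, `opT`, `opB` (OpDefs) which the rows of block R need: values, linearity,
commutation, antisymmetric families. `Fil` = filled coordinates.
-/

set_option autoImplicit false

namespace Pool.Agent.NDR

open Finset

variable {τ R : Type} [CommRing R]

/-- `opA` as a linear map -/
noncomputable def opAL (A : Finset (τ → ℤ)) (c : (τ → ℤ) → R) (v : τ) :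
    ((τ → ℤ) →₀ R) →ₗ[R] ((τ → ℤ) →₀ R) :=
  ∑ a ∈ A, (c a * ((a v : ℤ) : R)) • Finsupp.lmapDomain R R (fun e => e + a)

/-- `opT` as a linear map -/
noncomputable def opTL (t : τ → R) (v : τ) :
    ((τ → ℤ) →₀ R) →ₗ[R] ((τ → ℤ) →₀ R) :=
  Finsupp.lsum R fun e => (((e v : ℤ) : R) + t v) • Finsupp.lsingle e

theorem opAL_eq (A : Finset (τ → ℤ)) (c : (τ → ℤ) → R) (v : τ) (h : (τ → ℤ) →₀ R) :
    opAL A c v h = opA A c v h := by
  classical
  unfold opAL opA
  rw [LinearMap.sum_apply, Finsupp.sum, Finset.sum_comm]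
  refine Finset.sum_congr rfl fun a _ => ?_
  rw [LinearMap.smul_apply, Finsupp.lmapDomain_apply, Finsupp.mapDomain, Finsupp.smul_sum,
    Finsupp.sum]
  refine Finset.sum_congr rfl fun m _ => ?_
  exact (Finsupp.smul_single _ _ _).trans (by rw [smul_eq_mul])

theorem opTL_eq (t : τ → R) (v : τ) (h : (τ → ℤ) →₀ R) : opTL t v h = opT t v h := by
  classical
  unfold opTL opT
  rw [Finsupp.lsum_apply, Finsupp.sum, Finsupp.sum]
  refine Finset.sum_congr rfl fun m _ => ?_
  rw [LinearMap.smul_apply, Finsupp.lsingle_apply, Finsupp.smul_single, smul_eq_mul]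

/-- `opB` as a linear map -/
noncomputable def opBL (A : Finset (τ → ℤ)) (c : (τ → ℤ) → R) (t : τ → R) (v : τ) :
    ((τ → ℤ) →₀ R) →ₗ[R] ((τ → ℤ) →₀ R) := opAL A c v + opTL t v

theorem opBL_eq (A : Finset (τ → ℤ)) (c : (τ → ℤ) → R) (t : τ → R) (v : τ)
    (h : (τ → ℤ) →₀ R) : opBL A c t v h = opB A c t v h := by
  unfold opBL opB
  rw [LinearMap.add_apply, opAL_eq, opTL_eq]

theorem opA_apply (A : Finset (τ → ℤ)) (c : (τ → ℤ) → R) (v : τ)
    (h : (τ → ℤ) →₀ R) (e : τ → ℤ) :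
    opA A c v h e = ∑ a ∈ A, c a * ((a v : ℤ) : R) * h (e - a) := by
  classical
  rw [← opAL_eq]
  unfold opAL
  rw [LinearMap.sum_apply, Finsupp.finsetSum_apply]
  refine Finset.sum_congr rfl fun a _ => ?_
  rw [LinearMap.smul_apply, Finsupp.smul_apply, smul_eq_mul, Finsupp.lmapDomain_apply]
  congr 1
  have h1 : e = (e - a) + a := by abel
  conv_lhs => rw [h1]
  exact Finsupp.mapDomain_apply (add_left_injective a) h (e - a)

theorem opT_apply (t : τ → R) (v : τ) (h : (τ → ℤ) →₀ R) (e : τ → ℤ) :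
    opT t v h e = (((e v : ℤ) : R) + t v) * h e := by
  classical
  rw [← opTL_eq]
  unfold opTL
  rw [Finsupp.lsum_apply, Finsupp.sum, Finsupp.finsetSum_apply]
  rw [Finset.sum_eq_single e]
  · rw [LinearMap.smul_apply, Finsupp.smul_apply, Finsupp.lsingle_apply, Finsupp.single_eq_same,
      smul_eq_mul]
  · intro b _ hb
    rw [LinearMap.smul_apply, Finsupp.smul_apply, Finsupp.lsingle_apply,
      Finsupp.single_eq_of_ne hb.symm, smul_zero]
  · intro he
    rw [Finsupp.notMem_support_iff.1 he, map_zero, Finsupp.zero_apply]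

theorem opB_apply (A : Finset (τ → ℤ)) (c : (τ → ℤ) → R) (t : τ → R) (v : τ)
    (h : (τ → ℤ) →₀ R) (e : τ → ℤ) :
    opB A c t v h e = ∑ a ∈ A, c a * ((a v : ℤ) : R) * h (e - a) +
      (((e v : ℤ) : R) + t v) * h e := by
  unfold opB
  rw [Finsupp.add_apply, opA_apply, opT_apply]

theorem opA_zero (A : Finset (τ → ℤ)) (c : (τ → ℤ) → R) (v : τ) : opA A c v 0 = 0 := by
  rw [← opAL_eq, map_zero]

theorem opA_add (A : Finset (τ → ℤ)) (c : (τ → ℤ) → R) (v : τ) (g h : (τ → ℤ) →₀ R) :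
    opA A c v (g + h) = opA A c v g + opA A c v h := by
  simp only [← opAL_eq, map_add]

theorem opA_sub (A : Finset (τ → ℤ)) (c : (τ → ℤ) → R) (v : τ) (g h : (τ → ℤ) →₀ R) :
    opA A c v (g - h) = opA A c v g - opA A c v h := by
  simp only [← opAL_eq, map_sub]

theorem opA_neg (A : Finset (τ → ℤ)) (c : (τ → ℤ) → R) (v : τ) (h : (τ → ℤ) →₀ R) :
    opA A c v (-h) = - opA A c v h := by
  simp only [← opAL_eq, map_neg]

theorem opA_smul (A : Finset (τ → ℤ)) (c : (τ → ℤ) → R) (v : τ) (r : R) (h : (τ → ℤ) →₀ R) :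
    opA A c v (r • h) = r • opA A c v h := by
  simp only [← opAL_eq, map_smul]

theorem opA_sum (A : Finset (τ → ℤ)) (c : (τ → ℤ) → R) (v : τ) {J : Type} (S : Finset J)
    (h : J → (τ → ℤ) →₀ R) : opA A c v (∑ j ∈ S, h j) = ∑ j ∈ S, opA A c v (h j) := by
  simp only [← opAL_eq, map_sum]

theorem opB_zero (A : Finset (τ → ℤ)) (c : (τ → ℤ) → R) (t : τ → R) (v : τ) :
    opB A c t v 0 = 0 := by
  rw [← opBL_eq, map_zero]

theorem opB_add (A : Finset (τ → ℤ)) (c : (τ → ℤ) → R) (t : τ → R) (v : τ)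
    (g h : (τ → ℤ) →₀ R) : opB A c t v (g + h) = opB A c t v g + opB A c t v h := by
  simp only [← opBL_eq, map_add]

theorem opB_sub (A : Finset (τ → ℤ)) (c : (τ → ℤ) → R) (t : τ → R) (v : τ)
    (g h : (τ → ℤ) →₀ R) : opB A c t v (g - h) = opB A c t v g - opB A c t v h := by
  simp only [← opBL_eq, map_sub]

theorem opB_neg (A : Finset (τ → ℤ)) (c : (τ → ℤ) → R) (t : τ → R) (v : τ)
    (h : (τ → ℤ) →₀ R) : opB A c t v (-h) = - opB A c t v h := by
  simp only [← opBL_eq, map_neg]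

theorem opB_smul (A : Finset (τ → ℤ)) (c : (τ → ℤ) → R) (t : τ → R) (v : τ) (r : R)
    (h : (τ → ℤ) →₀ R) : opB A c t v (r • h) = r • opB A c t v h := by
  simp only [← opBL_eq, map_smul]

theorem opB_sum (A : Finset (τ → ℤ)) (c : (τ → ℤ) → R) (t : τ → R) (v : τ) {J : Type}
    (S : Finset J) (h : J → (τ → ℤ) →₀ R) :
    opB A c t v (∑ j ∈ S, h j) = ∑ j ∈ S, opB A c t v (h j) := by
  simp only [← opBL_eq, map_sum]

/-- the operators `B_v` commute -/
theorem opB_comm (A : Finset (τ → ℤ)) (c : (τ → ℤ) → R) (t : τ → R) (u v : τ)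
    (h : (τ → ℤ) →₀ R) : opB A c t u (opB A c t v h) = opB A c t v (opB A c t u h) := by
  classical
  ext e
  simp only [opB_apply, mul_add, Finset.sum_add_distrib, Finset.mul_sum]
  have h1 : ∀ a b : τ → ℤ, e - a - b = e - b - a := fun a b => by abel
  have h2 : ∑ x ∈ A, ∑ i ∈ A, c x * ((x u : ℤ) : R) * (c i * ((i v : ℤ) : R) * h (e - x - i)) =
      ∑ x ∈ A, ∑ i ∈ A, c x * ((x v : ℤ) : R) * (c i * ((i u : ℤ) : R) * h (e - x - i)) := by
    rw [Finset.sum_comm]
    refine Finset.sum_congr rfl fun a _ => Finset.sum_congr rfl fun b _ => ?_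
    rw [h1 b a]
    ring
  rw [h2]
  have h3 : ∑ x ∈ A, c x * ((x u : ℤ) : R) * (((((e - x) v : ℤ) : R) + t v) * h (e - x)) +
      ∑ i ∈ A, ((((e u : ℤ) : R)) + t u) * (c i * ((i v : ℤ) : R) * h (e - i)) =
      ∑ x ∈ A, c x * ((x v : ℤ) : R) * (((((e - x) u : ℤ) : R) + t u) * h (e - x)) +
      ∑ i ∈ A, ((((e v : ℤ) : R)) + t v) * (c i * ((i u : ℤ) : R) * h (e - i)) := by
    rw [← Finset.sum_add_distrib, ← Finset.sum_add_distrib]
    refine Finset.sum_congr rfl fun a _ => ?_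
    have hu : (((e - a) u : ℤ) : R) = ((e u : ℤ) : R) - ((a u : ℤ) : R) := by
      rw [Pi.sub_apply, Int.cast_sub]
    have hv : (((e - a) v : ℤ) : R) = ((e v : ℤ) : R) - ((a v : ℤ) : R) := by
      rw [Pi.sub_apply, Int.cast_sub]
    rw [hu, hv]
    ring
  linear_combination h3

/-- an antisymmetric family gives zero -/
theorem opB_anti (A : Finset (τ → ℤ)) (c : (τ → ℤ) → R) (t : τ → R)
    (I : Finset τ) (y : τ → τ → ((τ → ℤ) →₀ R)) (hy : ∀ u v, y u v = - y v u)
    (hy0 : ∀ v, y v v = 0) :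
    ∑ v ∈ I, opB A c t v (∑ u ∈ I, opB A c t u (y v u)) = 0 := by
  classical
  have h0 : ∀ n : ℕ, ∀ S : Finset τ, S.card = n →
      ∑ v ∈ S, opB A c t v (∑ u ∈ S, opB A c t u (y v u)) = 0 := by
    intro n
    induction n with
    | zero =>
      intro S hS
      rw [Finset.card_eq_zero.1 hS, Finset.sum_empty]
    | succ n ih =>
      intro S hS
      obtain ⟨w, S', hw, rfl, hS'⟩ := Finset.card_eq_succ.1 hS
      rw [Finset.sum_insert hw, Finset.sum_insert hw, hy0 w, opB_zero, zero_add, opB_sum]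
      have h1 : ∀ v ∈ S', opB A c t v (∑ u ∈ insert w S', opB A c t u (y v u)) =
          opB A c t v (opB A c t w (y v w)) + opB A c t v (∑ u ∈ S', opB A c t u (y v u)) :=
        fun v _ => by rw [Finset.sum_insert hw, opB_add]
      rw [Finset.sum_congr rfl h1, Finset.sum_add_distrib, ih S' hS', add_zero,
        ← Finset.sum_add_distrib]
      refine Finset.sum_eq_zero fun v _ => ?_
      rw [hy v w, opB_neg, opB_neg, opB_comm A c t w v, add_neg_cancel]
  exact h0 _ I rfl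

/-- `thm` is `opA` over the field -/
theorem thm_eq {ι K : Type} [Fintype ι] [Field K] (f : (ι → ℤ) →₀ K) (v : ι)
    (h : (ι → ℤ) →₀ K) : thm f v h = opA f.support f v h := by
  classical
  unfold thm opA
  simp only [Finsupp.sum]
  rw [Finset.sum_comm]
  refine Finset.sum_congr rfl fun m _ => Finset.sum_congr rfl fun a _ => ?_
  rw [mul_comm ((a v : ℤ) : K) (f a)]

/-- filled coordinates `P` for a form which misses `dlog x_v` (`q_i = m_i` for `i ∈ P`) -/
def Fil (P : Finset τ) (v : τ) : Set (τ → ℤ) :=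
  {m | ∀ i ∈ P, 0 ≤ m i ∧ (i ≠ v → 1 ≤ m i)}

end Pool.Agent.NDR
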