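import Pool.Agent.NDR.OpDefs

/-!
# Squad NDR (problem MP_b48657_ag), block C (CHO): the convenient perturbation and its functional equation

Writer helper85. Complete proofs in the docstrings. `f = F`, `f' = f + ∑_(i ∈ I) c_i x_i^L` (`fpr`),
`g = f' - f`, `I = sup κ`, `z = none`, `M = supp f`, `Mp M I L` = exponents of `f'`.
`Cn` = cone over the convex hull of `Mp`, `Np` = cone over its Newton polyhedron (height `r`).

PLAN. (1) CDV, CID, CFR, CNT, CNX: all faces of `f'` are smooth in the torus.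
(2) CEX (the functional equation as an identity of polynomials in `x, z`, using `e^(z f)`), CLS, CLV,
CLC, CLE (supports), CRM (adjoint form with `e^(z g) z^(-s)`), CRG (log form).
(3) CGE, CPH, CDL, CNV: the cone. (4) CHO: everything together.
-/

set_option autoImplicit false

namespace Pool.Agent.NDR

open Finset Pool.Agent.Helper6_Mono Pool.Agent.Helper30_Simp

/-! ## (1) Nondegeneracy of `f'` -/

/-- the derivation `δ` applied to the coefficients of `G` -/
noncomputable def cfD {σ K : Type} [Field K] (δ : Derivation ℤ K K) (G : MvPolynomial σ K) :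
    MvPolynomial σ K :=
  ∑ α ∈ G.support, MvPolynomial.monomial α (δ (MvPolynomial.coeff α G))

/-- **CDV** (easy-medium; no hypotheses). `G`, all `∂_l G` vanish at the algebraic point `ξ`: so does
`δ G`.
PROOF. `E = IntermediateField.adjoin K (range ξ)` is finite over `K` (`σ` finite, all `ξ i` integral:
`IntermediateField.finiteDimensional_adjoin` or `isAlgebraic_adjoin`). By
`differentialFiniteDimensional`, `differentialAlgebraFiniteDimensional`
(`Mathlib/FieldTheory/Differential/Basic.lean`, instance `Differential K := ⟨δ⟩`) there is a derivation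
`δ'` of `E` with `δ' (algebraMap a) = algebraMap (δ a)`. For every `H : MvPolynomial σ K` and `η : σ → E`
(induction on `H`): `δ' (aeval η H) = aeval η (cfD δ H) + ∑ l, aeval η (pderiv l H) * δ' (η l)` (prove first
that `cfD δ` is additive, `cfD δ (C a) = C (δ a)`, `cfD δ (p * X l) = cfD δ p * X l`; `cfD δ H` has
coefficients `δ (coeff α H)` for all `α`). Put `η = ξ`: the left side is `δ' 0 = 0`. -/
def CdvStmt : Prop :=
  ∀ (σ : Type) [Fintype σ] (K : Type) [Field K] [CharZero K] (δ : Derivation ℤ K K)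
    (G : MvPolynomial σ K) (L : Type) [Field L] [Algebra K L] [Algebra.IsAlgebraic K L]
    (ξ : σ → L), MvPolynomial.aeval ξ G = 0 →
    (∀ l, MvPolynomial.aeval ξ (MvPolynomial.pderiv l G) = 0) →
    MvPolynomial.aeval ξ (cfD δ G) = 0

/-- **CID** (easy; uses CDV). PROOF. `MvPolynomial σ K` is a Jacobson ring: the radical of an ideal `J` is
the intersection of the maximal ideals containing it (`Ideal.radical_eq_jacobson`,
`Ideal.mem_jacobson_iff` / `Ideal.jacobson`). Let `𝔪 ⊇ J` be maximal, `L = MvPolynomial σ K ⧸ 𝔪`, a field,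
finite over `K` (`finite_of_finite_type_of_isJacobsonRing`), `ξ i` = class of `X i`, so
`aeval ξ H` = class of `H`. CDV: the class of `cfD δ G` is `0`. -/
def CidStmt : Prop :=
  ∀ (σ : Type) [Fintype σ] (K : Type) [Field K] [CharZero K] (δ : Derivation ℤ K K)
    (G : MvPolynomial σ K),
    cfD δ G ∈ (Ideal.span ({G} ∪ Set.range fun l => MvPolynomial.pderiv l G)).radical

/-- **CFR** (easy-medium; no hypotheses). A field with independent constants.
PROOF. `K = FractionRing (MvPolynomial σ ℂ)`, `c i` = image of `X i`. For `i : σ` the derivation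
`pderiv i` extends to the fraction field: the ring homomorphism `MvPolynomial σ ℂ → TrivSqZeroExt K K`,
`a ↦ (a, ∂_i a)`, maps nonzero elements to units, so it extends to `K` (`IsLocalization.lift`); the second
component of the extension is the derivation (or define `δ (a / b) = (b δa - a δb) / b ^ 2` directly, or use
that localizations are formally étale). -/
def CfrStmt : Prop :=
  ∀ (σ : Type) [Fintype σ] [DecidableEq σ], ∃ (K : Type) (_ : Field K) (_ : Algebra ℂ K) (c : σ → K)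
    (δ : σ → Derivation ℤ K K), (∀ i (a : ℂ), δ i (algebraMap ℂ K a) = 0) ∧
      ∀ i j, δ i (c j) = if i = j then 1 else 0

/-- the exponents of `f'` -/
noncomputable def Mp {σ : Type} (M : Finset (σ →₀ ℕ)) (I : Finset σ) (L : ℕ) :
    Finset (σ →₀ ℕ) := by
  classical
  exact M ∪ I.image fun i => Finsupp.single i L

/-- **CNT** (medium; uses CID). The faces of `f'` for weights in the coordinates `I` are smooth in the torus.
`S = {α ∈ Mp : u·α = e}`, `e` the minimum (or any lower bound which is attained).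
PROOF. `c i ≠ 0` for all `i` (`δ i (c i) = 1`), the exponents `L e_i`, `i ∈ I`, are not in `M` (degree in `I`),
so the coefficient of `f'` at `L e_i` is `c i` and at `α ∈ M` that of `F`.
Case 1: `L e_i ∈ S` for some `i ∈ I`. Then `G = prt f' S` has `cfD (δ i) G = X i ^ L` (the coefficients at
`α ∈ M` are in `ℂ`, at `L e_j` they are `c j`), so `X i ^ L`, hence `X i` and the product of all `X l`, is in the
radical of CID.
Case 2: `S ⊆ M`. Then `L u_i > e` for all `i ∈ I` (`e ≤ L u_i` and not equal). If some `u_i < 0`, `i ∈ I`, let `-t`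
be the smallest `u_i`; for `α ∈ S`: `e = ∑_I u_i α_i ≥ -t |α|_I ≥ -t L = L min u`, contradiction to `L u_i > e`.
So `u ≥ 0`: let `w i = (u i).toNat` (`u i = 0` off `I`); `S = fcn F.support w` (the minimum of `w` on `M` is `e`,
because `S` is not empty), `prt f' S = map (prt F S)`, and `TorusSmooth (prt F S)` passes to the bigger field
(`Ideal.map` of the radical; see `smooth_map` in `Helper58_NDF/Main.lean`). -/
def CntStmt : Prop :=
  ∀ (σ : Type) [Fintype σ] [DecidableEq σ] (K : Type) [Field K] [Algebra ℂ K] (c : σ → K)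
    (δ : σ → Derivation ℤ K K), (∀ i (a : ℂ), δ i (algebraMap ℂ K a) = 0) →
    (∀ i j, δ i (c j) = if i = j then 1 else 0) →
    ∀ (F : MvPolynomial σ ℂ) (I : Finset σ) (L : ℕ), (∀ α ∈ F.support, ∑ i ∈ I, α i < L) →
    (∀ w : σ → ℕ, TorusSmooth (prt F (fcn F.support w))) →
    ∀ (u : σ → ℤ) (e : ℤ), (∀ i, i ∉ I → u i = 0) →
      (∀ α ∈ Mp F.support I L, e ≤ ∑ i, u i * ((α i : ℕ) : ℤ)) →
      (∃ α ∈ Mp F.support I L, ∑ i, u i * ((α i : ℕ) : ℤ) = e) →
      TorusSmooth (prt (fpr F I c L)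
        ((Mp F.support I L).filter fun α => ∑ i, u i * ((α i : ℕ) : ℤ) = e))

/-- **CNX** (medium; uses CFR, CNT). **Output (1)**: over an algebraically closed field, in the language of
`Defs.lean`: all faces of `z f'` (weights in the coordinates `I` and `z`) are smooth in the torus.
PROOF. `K₀`, `c`, `δ` of CFR, `K = AlgebraicClosure K₀`, `c i` mapped to `K`; `fpr F I c L` over `K` is the
image of that over `K₀`. Its support is `Mp F.support I L` (all `c i ≠ 0`), and `(hat f').support` is the image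
of it under `ex` (injective). Let `u : Option σ → ℤ` be as in `NdC`, `e = - u none`: `pr u (ex α) = ∑ u_i α_i - e`
(`u (some i) = 0` for `i ∉ I`), so `fac (hat f') u = hat G`, `G = prt f' {α : u·α = e}`, and CNT (then map to `K`)
gives `(∏ X_l)^n = A G + ∑ B_l ∂_l G`. With `ρ : MvPolynomial σ K → (Option σ → ℤ) →₀ K` (exponents `α`
at `some`, `0` at `none`): choose `g none = x^(-n) z^(-1) ρ(A)`, `g (some l) = x^(-n - e_l) z^(-1) ρ(B_l)`:
`θ_none (z G) = z G`, `θ_l (z G) = z x_l ∂_l G`. Check `∑_j thm (hat G) j (g j) = single 0 1` (all in the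
Laurent ring: it is convenient to transport `thm` to `AddMonoidAlgebra`, `thm f k h = (θ_k f) * h`). -/
def CnxStmt : Prop :=
  ∀ (σ : Type) [Fintype σ], ∃ (K : Type) (_ : Field K) (_ : Algebra ℂ K) (_ : IsAlgClosed K)
    (c : σ → K), ∀ (F : MvPolynomial σ ℂ) (I : Finset σ) (L : ℕ),
    (∀ α ∈ F.support, ∑ i ∈ I, α i < L) →
    (∀ w : σ → ℕ, TorusSmooth (prt F (fcn F.support w))) →
    (∀ i, c i ≠ 0) ∧ NdC (ih I) (hat (fpr F I c L))

/-! ## (2) The functional equation -/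

section fe

variable {σ : Type} {R : Type} [CommRing R]

/-- `∂_i + z ∂_i f` on polynomials in `x, z` -/
noncomputable def dE (f : MvPolynomial (Option σ) R) (i : σ) (P : MvPolynomial (Option σ) R) :
    MvPolynomial (Option σ) R :=
  MvPolynomial.pderiv (some i) P + MvPolynomial.X none * MvPolynomial.pderiv (some i) f * P

/-- `z ∂_z - s + z f` on polynomials in `x, z` -/
noncomputable def tE (f : MvPolynomial (Option σ) R) (s : R) (P : MvPolynomial (Option σ) R) :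
    MvPolynomial (Option σ) R :=
  MvPolynomial.X none * MvPolynomial.pderiv none P - MvPolynomial.C s * P
    + MvPolynomial.X none * f * P

/-- the composition of the `dE f i`, `i` in the word `w` -/
noncomputable def dEw (f : MvPolynomial (Option σ) R) (w : List σ)
    (P : MvPolynomial (Option σ) R) : MvPolynomial (Option σ) R :=
  w.foldr (fun i Q => dE f i Q) P

/-- polynomials in `x` as polynomials in `x, z` -/
noncomputable def inc (f : MvPolynomial σ R) : MvPolynomial (Option σ) R :=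
  MvPolynomial.rename some f

/-- all exponents of `P` are in `S` -/
def SupIn (S : Set (Option σ →₀ ℕ)) (P : MvPolynomial (Option σ) R) : Prop :=
  ∀ n ∈ P.support, n ∈ S

end fe

/-- **CEX** (medium; no hypotheses). The functional equation as an identity in `ℂ[x, z]`, `s = z ∂_z` on
`e^(z f)`.
PROOF. For `P ∈ ℂ[x,z]` let `c_n(P) ∈ ℂ[x]` be the coefficient of `z^n` of `P e^(z f)`: for `P = ∑_j p_j z^j`,
`c_n(P) = ∑_(j ≤ n) p_j f^(n-j) / (n-j)!` (work in `PowerSeries (MvPolynomial σ ℂ)` with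
`E = mk fun n => (1 / n!) f^n`, `P ↦ E * ∑_j C p_j X^j`; the map `P ↦ (c_n P)_n` is injective because `E` has
the invertible constant coefficient `1`). `c_n(tE f 0 P) = n c_n(P)`, `c_n(dE f i P) = ∂_i (c_n P)`,
`c_n(inc q * P) = q c_n(P)`, `c_n(1) = f^n / n!`, `c_n(inc f) = f^(n+1) / n!`. So `c_n` of the two sides is
`b(n) f^n / n!` and `∑ a(n) ∂^w f^(n+1) / n!`. -/
def CexStmt : Prop :=
  ∀ (σ : Type) [Fintype σ] (f : MvPolynomial σ ℂ) (b : Polynomial ℂ)
    (P : List (Polynomial (MvPolynomial σ ℂ) × List σ)),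
    (∀ n : ℕ, MvPolynomial.C (b.eval (n : ℂ)) * f ^ n =
      (P.map fun aw => aw.1.eval (n : MvPolynomial σ ℂ) * dWord aw.2 (f ^ (n + 1))).sum) →
    (b.sum fun j c => MvPolynomial.C c * (tE (inc f) 0)^[j] 1) =
      (P.map fun aw => aw.1.sum fun j a => inc a * (tE (inc f) 0)^[j] (dEw (inc f) aw.2 (inc f))).sum

section classes

variable {σ : Type}

/-- the `z`-exponent can be distributed to the variables of `I` with total defect `≤ t` -/
def Wc (I : Finset σ) (L t : ℕ) : Set (Option σ →₀ ℕ) :=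
  {n | ∃ k : σ → ℕ, ∑ i ∈ I, k i = n none ∧ ∑ i ∈ I, (L * k i - n (some i)) ≤ t}

/-- degree in `I` at most `d + L (z-exponent)` -/
def Uc (I : Finset σ) (L d : ℕ) : Set (Option σ →₀ ℕ) :=
  {n | ∑ i ∈ I, n (some i) ≤ d + L * n none}

/-- the `I`-part is `α₀ + ∑ (multiplicity) α`, the `z`-exponent is the sum of the multiplicities -/
def Vc (M : Finset (σ →₀ ℕ)) (I : Finset σ) : Set (Option σ →₀ ℕ) :=
  {n | ∃ α₀ ∈ M, ∃ r : (σ →₀ ℕ) → ℕ, (∀ i ∈ I, n (some i) = α₀ i + ∑ α ∈ M, r α * α i) ∧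
    n none = ∑ α ∈ M, r α}

/-- the exponents of `(z g)^j`, `j ≥ 1` -/
def Ec (I : Finset σ) (L : ℕ) : Set (Option σ →₀ ℕ) :=
  {n | n none ≠ 0 ∧ ∃ k : σ → ℕ, (∀ i ∈ I, n (some i) = L * k i) ∧ n none = ∑ i ∈ I, k i}

/-- height `r` over the real Newton polyhedron of `M` (coordinates `I`) -/
def Np (M : Finset (σ →₀ ℕ)) (I : Finset σ) (q : σ → ℝ) (r : ℝ) : Prop :=
  ∃ l : (σ →₀ ℕ) → ℝ, (∀ α, 0 ≤ l α) ∧ (∀ i ∈ I, ∑ α ∈ M, l α * ((α i : ℕ) : ℝ) ≤ q i) ∧
    ∑ α ∈ M, l α = r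

/-- height `r` over the convex hull of `M` (coordinates `I`) -/
def Cn (M : Finset (σ →₀ ℕ)) (I : Finset σ) (q : σ → ℝ) (r : ℝ) : Prop :=
  ∃ l : (σ →₀ ℕ) → ℝ, (∀ α, 0 ≤ l α) ∧ (∀ i ∈ I, q i = ∑ α ∈ M, l α * ((α i : ℕ) : ℝ)) ∧
    ∑ α ∈ M, l α = r

/-- the properties of the exponents `u` of the remainder (relative to the exponent of `1`) -/
structure GoodX [Fintype σ] (M : Finset (σ →₀ ℕ)) (I : Finset σ) (L D : ℕ) (u : Option σ → ℤ) :
    Prop where
  nn : ∀ v, 0 ≤ u v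
  np : Np (Mp M I L) I (fun i => ((u (some i) : ℤ) : ℝ)) ((u none : ℤ) : ℝ)
  kap : ∀ (κ : σ → ℕ) (N : ℕ), 0 < N → (∀ i, κ i ≠ 0 ↔ i ∈ I) → (∀ α ∈ M, N ≤ dot κ α) →
    (∀ i ∈ I, N < L * κ i) → (N : ℤ) * u none < ∑ i ∈ I, (κ i : ℤ) * u (some i)
  inf : ∑ i ∈ I, u (some i) ≤ D + L * u none

end classes

/-- **CLS** (easy; no hypotheses). Stability of `W`, `U`. `g = ∑_(i ∈ I) c_i x_i^L`.
PROOF. Every exponent of `tE g s Q` is an exponent `n` of `Q`, or `n + L e_i + e_z`, `i ∈ I` (raise `k i` by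
one); every exponent of `dE g i Q` is `n - e_i` (`n_i ≥ 1`; the defect grows by at most one), or
`n + (L - 1) e_i + e_z` (only if `L ≠ 0`; raise `k i` by one, defect at most one more). Multiplication by
`inc a`: exponents `n + β`, `β` an exponent of `a`. -/
def ClsStmt : Prop :=
  ∀ (σ : Type) [Fintype σ] (R : Type) [CommRing R] (I : Finset σ) (L t d : ℕ) (c : σ → R) (s : R)
    (Q : MvPolynomial (Option σ) R), SupIn (Wc I L t ∩ Uc I L d) Q →
    SupIn (Wc I L t ∩ Uc I L d)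
      (tE (inc (∑ i ∈ I, MvPolynomial.C (c i) * MvPolynomial.X i ^ L)) s Q) ∧
    (∀ i ∈ I, SupIn (Wc I L (t + 1) ∩ Uc I L d)
      (dE (inc (∑ i ∈ I, MvPolynomial.C (c i) * MvPolynomial.X i ^ L)) i Q)) ∧
    ∀ (a : MvPolynomial σ R) (e : ℕ), (∀ β ∈ a.support, ∑ i ∈ I, β i ≤ e) →
      SupIn (Wc I L t ∩ Uc I L (d + e)) (inc a * Q)

/-- **CLV** (easy; no hypotheses). Stability of `V`. PROOF. The exponents of `dE f j P`, `j ∉ I`, are those of `P`
lowered by one at `j`, and `n + α - e_j + e_z`, `α` an exponent of `f` (raise `r α` by one): coordinates in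
`I` are not touched by `- e_j`. -/
def ClvStmt : Prop :=
  ∀ (σ : Type) [Fintype σ] (R : Type) [CommRing R] (M : Finset (σ →₀ ℕ)) (I : Finset σ)
    (f : MvPolynomial σ R), f.support ⊆ M → SupIn (Vc M I) (inc f) ∧
    ∀ P : MvPolynomial (Option σ) R, SupIn (Vc M I) P → ∀ j, j ∉ I → SupIn (Vc M I) (dE (inc f) j P)

/-- **CLC** (medium; no hypotheses). PROOF. `n₁` with `k`, `def_i = L k_i - n₁_i` (truncated), `n₂` with `α₀, r`;
`θ = ∑ def_i / L ≤ t / L < 1`.
`np`: weights `min (k_i) (n₁_i / L)` at `L e_i` (`= k_i - def_i / L`, contributes `≤ n₁_i`), plus `r α` at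
`α`, plus `θ` at `α₀` (`θ α₀ ≤ α₀`); the sum of the weights is `∑ k_i - θ + ∑ r + θ`. (Add the weights of
coinciding exponents; `∑_(α ∈ Mp) [α = L e_i]...`: use sums of the functions `Pi.single`.)
`kap`: `κ_i n₁_i ≥ N k_i - (N / L) def_i` (if `def_i = 0` then `n₁_i ≥ L k_i` and `κ_i L ≥ N`; otherwise
`n₁_i = L k_i - def_i ≥ 0` and `κ_i ≥ N / L`), so `∑ κ_i n₁_i - N n₁_z ≥ - N t / L > - N`; and
`∑ κ_i n₂_i - N n₂_z = κ·α₀ + ∑ r α (κ·α - N) ≥ N` (`κ` vanishes off `I`).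
`inf`: add the two bounds, `|α|_I ≤ D' ≤ L`. -/
def ClcStmt : Prop :=
  ∀ (σ : Type) [Fintype σ] (M : Finset (σ →₀ ℕ)) (I : Finset σ) (L t d D' : ℕ), t < L → D' ≤ L →
    (∀ α ∈ M, ∑ i ∈ I, α i ≤ D') → ∀ n₁ ∈ Wc I L t ∩ Uc I L d, ∀ n₂ ∈ Vc M I,
    GoodX M I L (d + D') (fun v => (((n₁ + n₂) v : ℕ) : ℤ))

/-- **CLE** (easy-medium; no hypotheses). The left side: `b(S) 1 = b(s) + (exponents in Ec)`,
`S = - tE g s`, and the exponents of `Ec` are good.
PROOF. `S (C c) = C (s c) - z g c`, `S` maps polynomials with exponents in `Ec` to such polynomials, so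
`S^j 1 = C (s^j) + (Ec)`. `GoodX`: weights `k i` at `L e_i`; `∑ κ_i L k_i - N ∑ k_i = ∑ (L κ_i - N) k_i > 0`
as some `k i ≠ 0`, `i ∈ I`; `inf` with equality. -/
def CleStmt : Prop :=
  ∀ (σ : Type) [Fintype σ] (I : Finset σ) (L : ℕ), 0 < L →
    (∀ (R : Type) [CommRing R] (c : σ → R) (s : R) (b : Polynomial R),
      SupIn (Ec I L) ((b.sum fun j a => MvPolynomial.C a *
        (fun Q => - tE (inc (∑ i ∈ I, MvPolynomial.C (c i) * MvPolynomial.X i ^ L)) s Q)^[j] 1)
        - MvPolynomial.C (b.eval s))) ∧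
    ∀ (M : Finset (σ →₀ ℕ)) (D : ℕ), ∀ n ∈ Ec I L, GoodX M I L D (fun v => ((n v : ℕ) : ℤ))

/-- **CRM** (medium-strong; uses CEX, CLS, CLV, CLC, CLE, and GLB of squad GEN:
`Pool.Agent.GEN.H32.glb : Pool.Agent.GEN.GlbStmt`, landed). The functional equation for `f'`, adjoint form.
PROOF. GLB gives the list `P` of `CexStmt`. `D` = max over `P` of (length of `w`) + max over `P`, over the
coefficients of `a`, of the total degrees + total degree of `F`, `+ 1`. Let `D < L`; map the identity of CEX to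
`R[x, z]` (`MvPolynomial.map (algebraMap ℂ R)`, `ℂ → K → R`; write `f` for the image of `F`,
`g = ∑ c_i x_i^L`, `f' = f + g`). Leibniz rules, for all `Q, P`:
(a) `Q * tE f 0 P + tE g s Q * P = tE f' s (Q * P)`; (b) `Q * dE f i P + dE g i Q * P = dE f' i (Q * P)`.
Let `𝓔` be the additive group of all `∑_(i ∈ I) dE f' i (h i) + tE f' s (h none)`. (a) gives, by induction on
`j`, `Q * (tE f 0)^j P - (S^j Q) * P ∈ 𝓔`, `S Q = - tE g s Q`. Apply this to `Q = 1, P = 1`: the left side of CEX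
is `b(S) 1` modulo `𝓔`, i.e. `C (b(s)) + (Ec)` by CLE. Right side: `inc a * (tE f 0)^j P₀ ≡ S^j (inc a) * P₀`,
`P₀ = dEw f w (inc f)`. CLAIM: if `Q` has exponents in `Wc t ∩ Uc d`, `P` in `Vc`, `t + |w| ≤ D`, then
`Q * dEw f w P ≡ ` a sum of products `Q' * P'`, `Q'` in `Wc (t + |w|) ∩ Uc d`, `P'` in `Vc`, modulo `𝓔`. Induction
on `w` (for all `Q, P, t`): `w = i :: w'`. If `i ∈ I` use (b): `Q * dE f i (..) ≡ - (dE g i Q) * dEw f w' P`. If
`i ∉ I`: the `dE f i` commute with each other, so `dE f i (dEw f w' P) = dEw f w' (dE f i P)`, CLV. Start: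
`Q = S^j (inc a)` is in `Wc 0 ∩ Uc (deg a)` by CLS (`1` is in `Wc 0 ∩ Uc 0`). All exponents of the products
`Q' * P'` are sums `n₁ + n₂` as in CLC (`t ≤ D < L`). -/
def CrmStmt : Prop :=
  ∀ (σ : Type) [Fintype σ] (F : MvPolynomial σ ℂ) (b : Polynomial ℂ), LocalBS F b →
    ∃ D : ℕ, ∀ (I : Finset σ) (K : Type) [Field K] [Algebra ℂ K] (c : σ → K) (L : ℕ), D < L →
    ∀ (R : Type) [CommRing R] [Algebra K R] [Algebra ℂ R] [IsScalarTower ℂ K R] (s : R),
    ∃ (X : MvPolynomial (Option σ) R) (h : Option σ → MvPolynomial (Option σ) R),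
      MvPolynomial.C (Polynomial.aeval s b) + X =
        ∑ i ∈ I, dE (inc (MvPolynomial.map (algebraMap K R) (fpr F I c L))) i (h (some i))
          + tE (inc (MvPolynomial.map (algebraMap K R) (fpr F I c L))) s (h none) ∧
      ∀ n ∈ X.support, GoodX F.support I L D (fun v => ((n v : ℕ) : ℤ))

/-- **CRG** (medium; uses CRM). **Output (2)**: the same in log exponents, with the operators of `OpDefs.lean`.
PROOF. Put `X^ = ∑_(n ∈ supp X) single (n + one1 I) (coeff)`, `h^ none` similarly, and for `i ∈ I`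
`h^ (some i) = ∑ single (n + one1 I - e_i) (coeff)` (`h^ v = 0` for `v ∉ ih I`). The map
`T_v : n ↦ single (n + one1 I - e_v)`, resp. `T_none : n ↦ single (n + one1 I)` satisfies
`T_none (dE f' i (X^n)) = opB (hatS f') (hatC R f') (shf s) (some i) (T_i X^n)`: `∂_i X^n = n_i X^(n - e_i)` and
`(n + one1 I - e_i)_i = n_i`; `z ∂_i f' X^n = ∑_α c_α α_i X^(n + α - e_i) z`, exponent
`n + one1 I - e_i + ex α`; and `T_none (tE f' s (X^n)) = opB .. none (T_none X^n)`. Here
`∑_(a ∈ hatS f') φ a (hatC R f' a) = ∑_(α ∈ supp f') φ (ex α) (algebraMap K R (coeff α f'))` (`ex` is injective). -/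
def CrgStmt : Prop :=
  ∀ (σ : Type) [Fintype σ] (F : MvPolynomial σ ℂ) (b : Polynomial ℂ), LocalBS F b →
    ∃ D : ℕ, ∀ (I : Finset σ) (K : Type) [Field K] [Algebra ℂ K] (c : σ → K) (L : ℕ), D < L →
    ∀ (R : Type) [CommRing R] [Algebra K R] [Algebra ℂ R] [IsScalarTower ℂ K R] (s : R),
    ∃ (X : (Option σ → ℤ) →₀ R) (h : Option σ → (Option σ → ℤ) →₀ R),
      Finsupp.single (one1 I) (Polynomial.aeval s b) + X =
        ∑ v ∈ ih I, opB (hatS (fpr F I c L)) (hatC R (fpr F I c L)) (shf s) v (h v) ∧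
      (∀ v ∈ ih I, ∀ m ∈ (h v).support, (∀ w, 0 ≤ m w) ∧ ∀ i ∈ I, some i ≠ v → 1 ≤ m (some i)) ∧
      ∀ m ∈ X.support, GoodX F.support I L D (m - one1 I)

/-! ## (3) The cone -/

/-- **CGE** (easy-medium; no hypotheses). The Newton polyhedron cut by the degree is the convex hull.
PROOF. `m' = ∑ l_α α` (in `I`), `d = q - m' ≥ 0`, `|m'| + |d| ≤ L r` (sums over `I`). If `|m'| = L r` then `d = 0`
on `I`: nothing to do. Otherwise `t = |d| / (L r - |m'|) ∈ [0, 1]` and
`q = (1 - t) ∑ l_α α + ∑_i ((t m'_i + d_i) / L) L e_i` with total weight `(1 - t) r + (t |m'| + |d|) / L = r`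
(`L > 0` here, because `L = 0` gives `|m'| ≤ 0 = L r`). The weights at the `L e_i ∈ M` are added to those of `l`. -/
def CgeStmt : Prop :=
  ∀ (σ : Type) [Fintype σ] (M : Finset (σ →₀ ℕ)) (I : Finset σ) (L : ℕ) (q : σ → ℝ) (r : ℝ),
    (∀ i ∈ I, Finsupp.single i L ∈ M) → (∀ α ∈ M, ∑ i ∈ I, α i ≤ L) → Np M I q r →
    ∑ i ∈ I, q i ≤ L * r → Cn M I q r

/-- **CPH** (easy; uses CGE). All exponents of the remainder (and of `1`: `u = 0`) are in the cone, for large `L`.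
PROOF. `p_i = ∑_lev l_α α_i` (`i ∈ I = sup κ`, `l ≥ 0`), so `ρ := (∑ κ_i p_i) / N = ∑_lev l_α` (sum of
`κ·α = N`; convert `InC .. (toZ ..)` to weights on `lev`). `ρ > 0`: some `i ∈ I` exists as `κ·α = N > 0`, and
`p ≥ 1` on `I`. Let `δ < ρ` (`δ₁ = ρ / 2`), `L₀` with `L₀ (ρ - δ) ≥ D + ∑_I p_i`, `L₀ ≥` all `|α|_I`.
`Np (Mp M I L) I p (ρ - δ)` with weights `(1 - δ / ρ) l_α` on `lev ⊆ M ⊆ Mp`. Add `GoodX.np`:
`Np .. (p + u) (ρ - δ + u_z)`; `∑_I (p + u) ≤ ∑_I p + D + L u_z ≤ L (ρ - δ + u_z)`. CGE for `Mp M I L`. -/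
def CphStmt : Prop :=
  ∀ (σ : Type) [Fintype σ] (M : Finset (σ →₀ ℕ)) (κ : σ → ℕ) (N : ℕ) (P : Finset σ) (p : σ → ℝ)
    (D : ℕ), Dat M κ N P p → ∃ δ₁ : ℝ, 0 < δ₁ ∧ ∀ δ : ℝ, 0 < δ → δ ≤ δ₁ → ∃ L₀ : ℕ, ∀ L : ℕ,
    L₀ ≤ L → ∀ u : Option σ → ℤ, (u = 0 ∨ GoodX M (sup κ) L D u) →
    Cn (Mp M (sup κ) L) (sup κ) (fun i => p i + ((u (some i) : ℤ) : ℝ))
      ((∑ i, (κ i : ℝ) * p i) / N - δ + ((u none : ℤ) : ℝ))

/-- **CDL** (medium; no hypotheses). `δ` before `L`: the part of the big cone of level `κ~ = 0`.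
PROOF. Let `Q = p + u` (on `I = sup κ`), `Q = ∑_(α ∈ Mp) l_α α`, `∑ l_α = κ(Q) / N - δ`. Since `κ` lives on `I`,
`κ(Q) = ∑ l_α κ·α`, so `∑ l_α (κ·α - N) = N δ`, all terms `≥ 0`: `κ·α ≥ N` on `M`, `κ·(L e_i) = L κ_i ≥ 2 N`.
Off `lev M κ N` we have: `κ·α - N ≥ 1` for `α ∈ M`, and `L κ_i - N ≥ L κ_i / 2 ≥ L / 2` at `L e_i`
(`N < L κ_i`, so `L e_i ∉ lev`). Hence `e = ∑_(α ∉ lev) l_α α` has `0 ≤ e_i ≤ N δ (Δ + 2)`, `Δ` = max of
the coordinates of `M`. `Q₀ = Q - ∑_lev ⌊l_α⌋ α = ∑_lev {l_α} α + e`, `e ≥ 0`, is in `p + ℤ^I` and in a bounded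
set independent of `δ ≤ 1` and `L`: finitely many possible `Q₀`. For each of them not in the cone
`C` of `lev` (coordinates `I`) the Farkas lemma (`ABCT.H96.farkas` in `Helper96_ABCT/Farkas.lean`, landed) gives
`h` with `h·α ≥ 0` on `lev`, `h·Q₀ < 0`; but `h·Q₀ ≥ h·e ≥ - ‖h‖₁ N δ (Δ + 2)`: impossible for `δ` small.
So for `δ ≤ δ₀` always `Q₀ ∈ C` and `Q = Q₀ + ∑ ⌊l_α⌋ α ∈ C`. -/
def CdlStmt : Prop :=
  ∀ (σ : Type) [Fintype σ] (M : Finset (σ →₀ ℕ)) (κ : σ → ℕ) (N : ℕ) (p : σ → ℝ), 0 < N →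
    (∀ α ∈ M, N ≤ dot κ α) → ∃ δ₀ : ℝ, 0 < δ₀ ∧ ∀ (δ : ℝ) (L : ℕ), 0 < δ → δ ≤ δ₀ → 2 * N ≤ L →
    ∀ u : σ → ℤ, Cn (Mp M (sup κ) L) (sup κ) (fun i => p i + ((u i : ℤ) : ℝ))
        ((∑ i, (κ i : ℝ) * (p i + ((u i : ℤ) : ℝ))) / N - δ) →
      InC (sup κ) (toZ (lev M κ N)) (fun i => p i + ((u i : ℤ) : ℝ))

/-- `p^ = (p, κ(p)/N - δ + 1)` -/
noncomputable def phat {σ : Type} [Fintype σ] (κ : σ → ℕ) (N : ℕ) (p : σ → ℝ) (δ : ℝ) :
    Option σ → ℝ
  | none => (∑ i, (κ i : ℝ) * p i) / N - δ + 1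
  | some i => p i

/-- **CNV** (easy; no hypotheses). Translation of `InC` for `z f'`. PROOF. `a = ex α`, `α ∈ supp f'`, is a bijection
of the supports (`ex` injective), `(ex α) none = 1`; `pt q m v = m v - 1 + q v`. -/
def CnvStmt : Prop :=
  ∀ (σ : Type) [Fintype σ] (K : Type) [Field K] (G : MvPolynomial σ K) (I : Finset σ)
    (x : Option σ → ℝ), InC (ih I) (hatS G) x ↔ Cn G.support I (fun i => x (some i)) (x none)

/-- **CHO** (easy-medium; uses CNX, CRG, CPH, CDL, CNV). **Output of block C** for block R.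
PROOF. `b = bfun F` satisfies `LocalBS F b` (it is the generator of the span of the set of all such
polynomials, which is closed under sums and multiples), or: if all `b` with `LocalBS F b` had the root `-|κ|/N`
then so had `bfun F`, which is in their span. `K, c` of CNX; `δ₀` the minimum of those of CPH (with `D` of CRG)
and CDL; `L` larger than `D`, `L₀`, `2 N`, `N`, all `|α|_I`. The support of `fpr F I c L` is
`Mp F.support I L` (`c i ≠ 0`, `L e_i ∉ M`). `pt (phat κ N p δ) m = (p + u, κ(p)/N - δ + u_z)` for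
`u = m - one1 I` on `ih I`. In `(iii)`: `u i = m (some i) - 1`; `∑ κ_i u_i = N m_z` gives
`κ(p + u)/N - δ = κ(p)/N - δ + m_z`. -/
def ChoStmt : Prop :=
  ∀ (σ : Type) [Fintype σ] (F : MvPolynomial σ ℂ) (κ : σ → ℕ) (N : ℕ) (P : Finset σ)
    (p : σ → ℝ), (∀ u : σ → ℕ, TorusSmooth (prt F (fcn F.support u))) →
    Dat F.support κ N P p →
    (bfun F).eval (-(((∑ i, κ i : ℕ) : ℂ) / (N : ℕ))) ≠ 0 →
    ∃ (b : Polynomial ℂ) (K : Type) (_ : Field K) (_ : Algebra ℂ K) (_ : IsAlgClosed K)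
      (c : σ → K) (δ₀ : ℝ), b.eval (-(((∑ i, κ i : ℕ) : ℂ) / (N : ℕ))) ≠ 0 ∧ (∀ i, c i ≠ 0) ∧
      0 < δ₀ ∧ ∀ δ : ℝ, 0 < δ → δ ≤ δ₀ → ∃ L : ℕ, (∀ α ∈ F.support, ∑ i ∈ sup κ, α i < L) ∧
        (∀ i ∈ sup κ, N < L * κ i) ∧
        -- (i) nondegenerate
        NdC (ih (sup κ)) (hat (fpr F (sup κ) c L)) ∧
        -- (ii) the relation
        (∀ (R : Type) [CommRing R] [Algebra K R] [Algebra ℂ R] [IsScalarTower ℂ K R] (s : R),
          ∃ (X : (Option σ → ℤ) →₀ R) (h : Option σ → (Option σ → ℤ) →₀ R),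
            Finsupp.single (one1 (sup κ)) (Polynomial.aeval s b) + X =
              ∑ v ∈ ih (sup κ), opB (hatS (fpr F (sup κ) c L)) (hatC R (fpr F (sup κ) c L))
                (shf s) v (h v) ∧
            (∀ v ∈ ih (sup κ), ∀ m ∈ (h v).support, (∀ w, 0 ≤ m w) ∧
              ∀ i ∈ sup κ, some i ≠ v → 1 ≤ m (some i)) ∧
            (∀ m ∈ X.support, (∀ i ∈ sup κ, 1 ≤ m (some i)) ∧
              (N : ℤ) * m none < ∑ i ∈ sup κ, (κ i : ℤ) * (m (some i) - 1) ∧
              InC (ih (sup κ)) (hatS (fpr F (sup κ) c L)) (pt (phat κ N p δ) m)) ∧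
            InC (ih (sup κ)) (hatS (fpr F (sup κ) c L)) (pt (phat κ N p δ) (one1 (sup κ)))) ∧
        -- (iii) level 0 of the big cone is in the cone of the face
        ∀ m : Option σ → ℤ, (N : ℤ) * m none = ∑ i ∈ sup κ, (κ i : ℤ) * (m (some i) - 1) →
          InC (ih (sup κ)) (hatS (fpr F (sup κ) c L)) (pt (phat κ N p δ) m) →
          InC (sup κ) (toZ (lev F.support κ N)) (pt p fun i => m (some i))

end Pool.Agent.NDR
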