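import Pool.Agent.Helper30_Simp.Defs
import Pool.Agent.Helper6_Mono.BFunDefs

/-!
# Squad NDR: root side for all nondegenerate coefficients (MP_b48657_ag)

Common definitions and the interface of the blocks G (Koszul exactness), R (resonance, threshold
raising, strictness), L (linear programming), B (Bernstein existence). Notes 3922, 3933, 3942,
3920, 3887.

Conventions. Coordinates `ι` (a finite type; `ι = σ` or `Option σ`), exponents `m : ι → ℤ`,
Laurent polynomials are finitely supported functions `(ι → ℤ) →₀ K`. `I` is the set of the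
coordinates with real thresholds and derivatives, the coordinates outside `I` are invertible
parameters. A monomial `x^m` (times `dlog x`) has the real point `q = m - 1 + p`.
-/

set_option autoImplicit false

namespace Pool.Agent.NDR

open Finset Pool.Agent.Helper30_Simp

section gen

variable {ι : Type} [Fintype ι] {K : Type} [Field K]

/-- the operator `h ↦ (θ_k f) h`, where `θ_k f = ∑ a_k f_a x^a` -/
noncomputable def thm (f : (ι → ℤ) →₀ K) (k : ι) (h : (ι → ℤ) →₀ K) : (ι → ℤ) →₀ K :=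
  f.sum fun a c => h.sum fun m d => Finsupp.single (m + a) (((a k : ℤ) : K) * c * d)

/-- pairing of an exponent with a vector -/
def pr {R : Type} [CommRing R] (u : ι → R) (m : ι → ℤ) : R := ∑ i, u i * ((m i : ℤ) : R)

/-- the coordinates `i ∈ I` of `q` are those of a point of the real cone generated by `A` -/
def InC (I : Finset ι) (A : Finset (ι → ℤ)) (q : ι → ℝ) : Prop :=
  ∃ l : (ι → ℤ) → ℝ, (∀ a, 0 ≤ l a) ∧ ∀ i ∈ I, q i = ∑ a ∈ A, l a * ((a i : ℤ) : ℝ)

/-- the point `q = m - 1 + p` of the monomial `x^m` -/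
def pt (p : ι → ℝ) (m : ι → ℤ) : ι → ℝ := fun i => ((m i : ℤ) : ℝ) - 1 + p i

/-- all monomials `x^m` of `h` have `m - 1 + p` in the cone of `A` (in the coordinates `I`) -/
def Reg (I : Finset ι) (A : Finset (ι → ℤ)) (p : ι → ℝ) (h : (ι → ℤ) →₀ K) : Prop :=
  ∀ m ∈ h.support, InC I A (pt p m)

/-- the sum of the terms of `f` with exponent in the face `u · a = 0` -/
noncomputable def fac (f : (ι → ℤ) →₀ K) (u : ι → ℤ) : (ι → ℤ) →₀ K := by
  classical
  exact f.filter fun a => pr u a = 0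

/-- `f` is smooth in the torus and `f = 0` there wherever all `θ_j f` vanish: the `θ_j f` (all
coordinates `j`) generate the unit ideal of the Laurent ring -/
def Unit (f : (ι → ℤ) →₀ K) : Prop :=
  ∃ g : ι → (ι → ℤ) →₀ K, ∑ j, thm f j (g j) = Finsupp.single 0 1

/-- all faces of `f` for weights `u` in the coordinates `I` which are `≥ 0` on the support of `f`
(the face `u · a = 0` not empty) are smooth in the torus -/
def NdC (I : Finset ι) (f : (ι → ℤ) →₀ K) : Prop :=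
  ∀ u : ι → ℤ, (∀ i, i ∉ I → u i = 0) → (∀ a ∈ f.support, 0 ≤ pr u a) →
    (∃ a ∈ f.support, pr u a = 0) → Unit (fac f u)

end gen

/-- **Output of block G.** `f` is homogeneous of degree 1 for `κ / N`, all its faces (coordinates
`I`) are smooth in the torus. A relation `∑ (θ_k f) x_k = 0` on the module of the monomials with
`m - 1 + p` in the cone of the support of `f` is a Koszul relation, up to vectors orthogonal to the
support. (`f = 0` allowed.) -/
def GLStmt : Prop :=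
  ∀ (ι : Type) [Fintype ι] (K : Type) [Field K] [CharZero K] (I : Finset ι)
    (f : (ι → ℤ) →₀ K) (κ : ι → ℤ) (N : ℤ) (p : ι → ℝ), 0 < N → (∀ i, i ∉ I → κ i = 0) →
    (∀ a ∈ f.support, pr κ a = N) → NdC I f →
    ∀ x : ι → (ι → ℤ) →₀ K, (∀ k ∈ I, Reg I f.support p (x k)) →
      ∑ k ∈ I, thm f k (x k) = 0 →
      ∃ (y : ι → ι → (ι → ℤ) →₀ K) (C : Type) (_ : Fintype C) (v : C → ι → ℚ)
        (z : C → (ι → ℤ) →₀ K),
        (∀ k l, y k l = - y l k) ∧ (∀ k l, Reg I f.support p (y k l)) ∧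
        (∀ c, Reg I f.support p (z c)) ∧ (∀ c i, i ∉ I → v c i = 0) ∧
        (∀ c, ∀ a ∈ f.support, pr (v c) a = 0) ∧
        ∀ k ∈ I, x k = ∑ l ∈ I, thm f l (y k l) + ∑ c, ((v c k : ℚ) : K) • z c

section pol

variable {σ : Type} [Fintype σ]

/-- a polynomial as a Laurent polynomial -/
noncomputable def toL {K : Type} [Field K] (f : MvPolynomial σ K) : (σ → ℤ) →₀ K :=
  f.support.sum fun α => Finsupp.single (fun i => ((α i : ℕ) : ℤ)) (MvPolynomial.coeff α f)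

/-- the exponents of `M` of weight `N` -/
def lev (M : Finset (σ →₀ ℕ)) (κ : σ → ℕ) (N : ℕ) : Finset (σ →₀ ℕ) :=
  M.filter fun α => dot κ α = N

/-- the exponents of `M` as integer vectors -/
noncomputable def toZ (M : Finset (σ →₀ ℕ)) : Finset (σ → ℤ) := by
  classical
  exact M.image fun α i => ((α i : ℕ) : ℤ)

/-- the coordinates of positive weight -/
def sup (κ : σ → ℕ) : Finset σ := Finset.univ.filter fun i => κ i ≠ 0

/-- the part of `f` with exponents in `S` (same as `part` of Helper30_Simp) -/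
noncomputable def prt {K : Type} [Field K] (f : MvPolynomial σ K) (S : Finset (σ →₀ ℕ)) :
    MvPolynomial σ K :=
  ∑ α ∈ S, MvPolynomial.monomial α (MvPolynomial.coeff α f)

/-- the face of `M` where the weight `u` is minimal (same as `GEN.fce`) -/
noncomputable def fcn (M : Finset (σ →₀ ℕ)) (u : σ → ℕ) : Finset (σ →₀ ℕ) := by
  classical
  exact M.filter fun α => ∀ β ∈ M, dot u α ≤ dot u β

/-- the face of `M` where the integer weight `η` is minimal -/
noncomputable def fcz (M : Finset (σ →₀ ℕ)) (η : σ → ℤ) : Finset (σ →₀ ℕ) := by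
  classical
  exact M.filter fun α => ∀ β ∈ M, ∑ i, η i * ((α i : ℕ) : ℤ) ≤ ∑ i, η i * ((β i : ℕ) : ℤ)

/-- **nondegenerate**: (i) all faces of the Newton polyhedron (weights `u ≥ 0`), (ii) for the faces
`φ` of positive weights level (`κ ≥ 0`, `κ · α > 0` on the support) also all faces of the finite set
of exponents of `φ` are smooth in the torus. ((ii) follows from (i) if `κ > 0`.) -/
def ND {K : Type} [Field K] (f : MvPolynomial σ K) : Prop :=
  (∀ u : σ → ℕ, TorusSmooth (prt f (fcn f.support u))) ∧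
  ∀ (κ : σ → ℕ) (η : σ → ℤ), (∀ α ∈ f.support, 0 < dot κ α) →
    TorusSmooth (prt f (fcz (fcn f.support κ) η))

/-- `p` is generic: every rational vector `v` on `I` with `v · p` rational agrees on the face `φ`
with a rational vector supported on the coordinates `i ∈ I` with `p_i = 1` -/
def Gen (I : Finset σ) (φ : Finset (σ →₀ ℕ)) (p : σ → ℝ) : Prop :=
  ∀ v : σ → ℚ, (∀ i, i ∉ I → v i = 0) → (∃ r : ℚ, ∑ i, (v i : ℝ) * p i = r) →
    ∃ w : σ → ℚ, (∀ i, w i ≠ 0 → i ∈ I ∧ p i = 1) ∧ ∀ α ∈ φ, ∑ i, v i * (α i : ℚ) = ∑ i, w i * (α i : ℚ)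

/-- the data `(κ, N, P, p)` at a flat face -/
structure Dat (M : Finset (σ →₀ ℕ)) (κ : σ → ℕ) (N : ℕ) (P : Finset σ) (p : σ → ℝ) : Prop where
  pos : 0 < N
  ge : ∀ α ∈ M, N ≤ dot κ α
  ne : (lev M κ N).Nonempty
  flat : ∃ l : (σ →₀ ℕ) → ℚ, ∀ i ∈ sup κ, ∑ α ∈ lev M κ N, l α * (α i : ℚ) = 1
  sub : P ⊆ sup κ
  one : ∀ i ∈ P, p i = 1
  ge1 : ∀ i ∈ sup κ, 1 ≤ p i
  inC : InC (sup κ) (toZ (lev M κ N)) p
  gen : Gen (sup κ) (lev M κ N) p

end pol

/-- **Output of block R.** If `-|κ|/N` is not a root of `b_F` then the monomial `x^1` (coordinates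
`I = sup κ`) is a sum of `(θ_k f_φ) h_k` with filled monomials of degree one less. -/
def RESStmt : Prop :=
  ∀ (σ : Type) [Fintype σ] (F : MvPolynomial σ ℂ) (κ : σ → ℕ) (N : ℕ) (P : Finset σ)
    (p : σ → ℝ), (∀ u : σ → ℕ, TorusSmooth (prt F (fcn F.support u))) →
    Dat F.support κ N P p →
    (Helper6_Mono.bfun F).eval (-(((∑ i, κ i : ℕ) : ℂ) / (N : ℕ))) ≠ 0 →
    ∃ h : σ → (σ → ℤ) →₀ ℂ,
      (∀ k ∈ sup κ, ∀ m ∈ (h k).support, InC (sup κ) (toZ (lev F.support κ N)) (pt p m) ∧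
        ∑ i, (κ i : ℝ) * pt p m i = ∑ i, (κ i : ℝ) * p i - N ∧
        ∀ i ∈ P, i ≠ k → 1 ≤ m i) ∧
      ∑ k ∈ sup κ, thm (toL (prt F (lev F.support κ N))) k (h k) =
        Finsupp.single (fun i => if κ i = 0 then 0 else 1) 1

/-- **Output of block L.** A good flat base `B` lies on a (minimal) face with the same slope, for
which there are `K ⊆ P ⊆ I` and `p` with: `(κ, N, P, p)` is as in block R; the filled monomials of
degree one less only occur for `k ∈ K` and have `m = 1 - e_k` on `P`; the exponents which contain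
`k ∈ K` are `e_k` on `P`; for all `K' ⊆ K` the exponents which contain a variable of `K'` have rank
`≥ 2 |K'|`. -/
def LPBStmt : Prop :=
  ∀ (σ : Type) [Fintype σ] (M : Finset (σ →₀ ℕ)) (κ : σ → ℕ) (N : ℕ) (B : Finset (σ →₀ ℕ)),
    0 < N → (∀ α ∈ M, N ≤ dot κ α) → B ⊆ M → B.Nonempty → (∀ α ∈ B, dot κ α = N) →
    (∀ t : B → ℤ, (∀ j, ∑ α, t α * (((α : σ →₀ ℕ) j : ℕ) : ℤ) = 0) → t = 0) →
    (∀ v : σ → ℚ, (∀ i, κ i = 0 → v i = 0) → (∀ α ∈ B, ∑ i, v i * (α i : ℚ) = 0) →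
      ∑ i, v i = 0) →
    (∀ A ∈ B, ∀ j, κ j ≠ 0 → A j = 1 → (∀ β ∈ B, β ≠ A → β j = 0) →
      ∃ l, l ≠ j ∧ κ l ≠ 0 ∧ A l = 1 ∧ ∀ β ∈ B, β ≠ A → β l = 0) →
    ∃ (κ' : σ → ℕ) (N' : ℕ) (K P : Finset σ) (p : σ → ℝ),
      Dat M κ' N' P p ∧ (∀ i, κ' i = 0 ↔ κ i = 0) ∧ (∑ i, κ' i) * N = (∑ i, κ i) * N' ∧
      K ⊆ P ∧
      (∀ k ∈ sup κ', ∀ m : σ → ℤ, InC (sup κ') (toZ (lev M κ' N')) (pt p m) →
        ∑ i, (κ' i : ℝ) * pt p m i = ∑ i, (κ' i : ℝ) * p i - N' →
        (∀ i ∈ P, i ≠ k → 1 ≤ m i) → k ∈ K ∧ m k = 0 ∧ ∀ i ∈ P, i ≠ k → m i = 1) ∧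
      (∀ k ∈ K, ∀ α ∈ lev M κ' N', α k ≠ 0 → α k = 1 ∧ ∀ i ∈ P, i ≠ k → α i = 0) ∧
      ∀ K' ⊆ K, 2 * K'.card ≤ Module.finrank ℚ (Submodule.span ℚ
        {v : σ → ℚ | ∃ α ∈ lev M κ' N', (∃ k ∈ K', α k ≠ 0) ∧ v = fun i => (α i : ℚ)})

open scoped Classical in
/-- **Output of block B** (helper74; `M` = the exponents of the face, all faces of `M` for integer
weights smooth in the torus). The cofactors `g_k` have a common zero in the torus. -/
def BEZStmt : Prop :=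
  ∀ (σ : Type) [Fintype σ] (K : Type) [Field K] [CharZero K] (F : MvPolynomial σ K)
    (K₀ P : Finset σ), K₀ ⊆ P →
    (∀ k ∈ K₀, ∀ α ∈ F.support, α k ≠ 0 → α k = 1 ∧ ∀ i ∈ P, i ≠ k → α i = 0) →
    (∀ η : σ → ℤ, TorusSmooth (prt F (fcz F.support η))) →
    (∀ K' ⊆ K₀, 2 * K'.card ≤ Module.finrank ℚ (Submodule.span ℚ
        {v : σ → ℚ | ∃ α ∈ F.support, (∃ k ∈ K', α k ≠ 0) ∧ v = fun i => (α i : ℚ)})) →
    ∀ (n : ℕ) (h : σ → MvPolynomial σ K),
      ∏ i ∈ Finset.univ.filter (fun i => i ∉ P), MvPolynomial.X i ^ n ≠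
        ∑ k ∈ K₀, (∑ α ∈ F.support.filter (fun α => α k ≠ 0),
          MvPolynomial.monomial (α.erase k) (MvPolynomial.coeff α F)) * h k

/-- the slope of every good flat base of the support of `F` is minus a root of `b_F` (same as
`GEN.Roots`) -/
def Rts {σ : Type} [Fintype σ] (F : MvPolynomial σ ℂ) : Prop :=
  ∀ (κ : σ → ℕ) (N : ℕ) (B : Finset (σ →₀ ℕ)), 0 < N → (∀ α ∈ F.support, N ≤ dot κ α) →
    B ⊆ F.support → B.Nonempty → (∀ α ∈ B, dot κ α = N) →
    (∀ t : B → ℤ, (∀ j, ∑ α, t α * (((α : σ →₀ ℕ) j : ℕ) : ℤ) = 0) → t = 0) →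
    (∀ v : σ → ℚ, (∀ i, κ i = 0 → v i = 0) → (∀ α ∈ B, ∑ i, v i * (α i : ℚ) = 0) →
      ∑ i, v i = 0) →
    (∀ A ∈ B, ∀ j, κ j ≠ 0 → A j = 1 → (∀ β ∈ B, β ≠ A → β j = 0) →
      ∃ l, l ≠ j ∧ κ l ≠ 0 ∧ A l = 1 ∧ ∀ β ∈ B, β ≠ A → β l = 0) →
    (Helper6_Mono.bfun F).eval (-(((∑ i, κ i : ℕ) : ℂ) / (N : ℕ))) = 0

/-- **Root side** for all nondegenerate polynomials -/
def RootsStmt : Prop :=
  ∀ (σ : Type) [Fintype σ] (F : MvPolynomial σ ℂ), ND F → Rts F

end Pool.Agent.NDR
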