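import Mathlib

/-!
# Squad NDL (problem MP_b48657_ag, all nondegenerate coefficients, root side): the linear programming block

Writer: helper30.  Everything is over `ℚ`, no facets, no topology.  `A` = the exponents of the flat face, `B` = the good base, `I` = the
coordinates of positive weight (the others are the parameters `x_J`), `C` = the cone generated by the restrictions of the `a ∈ A` to `I`,
`V` = its span.  OUTPUT of the block: `LpaStmt` (the point `p`, the dual point `y`), `DegStmt`, `WskStmt`, `GluStmt` (in the form of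
`Pool.Agent.BEZ.BziStmt`), `MnfStmt` (smallest face).

RULES.  One file per row: `Pool/Agent/HelperNN_NDL/XXX.lean`, import `Pool.Agent.NDR.StmtsL`, namespace `Pool.Agent.NDR.HNN`, theorem
`xxx (the rows used, as hypotheses, in the order of the docstring) : XxxStmt`.  Never `convert`, `congr!`, straight double quotes.
-/

set_option autoImplicit false

namespace Pool.Agent.NDR

open Finset

/-- pairing of a rational vector with an exponent -/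
def dq {σ : Type} [Fintype σ] (v : σ → ℚ) (a : σ →₀ ℕ) : ℚ := ∑ i, v i * (a i : ℚ)

/-- `v` is zero outside `I` -/
def Off {σ : Type} (I : Finset σ) (v : σ → ℚ) : Prop := ∀ i, i ∉ I → v i = 0

/-- coordinate `i` of the combination `∑ a ∈ A, μ a * a` -/
def cmb {σ : Type} (A : Finset (σ →₀ ℕ)) (μ : (σ →₀ ℕ) → ℚ) (i : σ) : ℚ := ∑ a ∈ A, μ a * (a i : ℚ)

/-- The combinatorial data: `B` is a flat base in the face `A` with the set `I` of coordinates of positive weight, `A` is the smallest face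
containing `B` (`min`). -/
structure FlatD {σ : Type} [Fintype σ] (A B : Finset (σ →₀ ℕ)) (I : Finset σ) : Prop where
  sub : B ⊆ A
  ht : ∃ κ : σ → ℚ, (∀ i ∈ I, 0 < κ i) ∧ Off I κ ∧ ∀ a ∈ A, dq κ a = 1
  ind : ∀ t : (σ →₀ ℕ) → ℚ, (∀ i, ∑ b ∈ B, t b * (b i : ℚ) = 0) → ∀ b ∈ B, t b = 0
  flat : ∀ v : σ → ℚ, Off I v → (∀ b ∈ B, dq v b = 0) → ∑ i, v i = 0
  min : ∀ v : σ → ℚ, Off I v → (∀ a ∈ A, 0 ≤ dq v a) → (∀ b ∈ B, dq v b = 0) → ∀ a ∈ A, dq v a = 0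

/-- `B` is good: a private coordinate `j ∈ I` of `b ∈ B` with `b j = 1` is not the only one -/
def GoodB {σ : Type} (B : Finset (σ →₀ ℕ)) (I : Finset σ) : Prop :=
  ∀ b ∈ B, ∀ j ∈ I, b j = 1 → (∀ b' ∈ B, b' ≠ b → b' j = 0) →
    ∃ l ∈ I, l ≠ j ∧ b l = 1 ∧ ∀ b' ∈ B, b' ≠ b → b' l = 0

/-- The dual point: `y ≥ 0` on `I`, `y.a ≤ 1` on `A`, and the support of `y` contains the supports of all `y'` with the same properties and
the same values of `∑ y` and `∑ y.a`. -/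
structure DualY {σ : Type} [Fintype σ] (A : Finset (σ →₀ ℕ)) (I : Finset σ) (y : σ → ℚ) : Prop where
  off : Off I y
  nn : ∀ i, 0 ≤ y i
  le : ∀ a ∈ A, dq y a ≤ 1
  max : ∀ y' : σ → ℚ, Off I y' → (∀ i, 0 ≤ y' i) → (∀ a ∈ A, dq y' a ≤ 1) → ∑ i, y' i = ∑ i, y i →
    ∑ a ∈ A, dq y' a = ∑ a ∈ A, dq y a → ∀ i, 0 < y' i → 0 < y i

/-- The primal point `p = ∑ μ a * a` (on `I`), in the interior of the cone: `p i ≥ 1` on `I`, `p i = 1` on the support of `y`, `p i` is not an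
integer unless `p i = 1`, the height `∑ μ` of `p` is almost `∑ y`, and (`gen`) a face of the cone which is cut out by coordinates of the support
of `y` and contains a point of `p + ℤ^I` is orthogonal to `1 - p`. -/
structure PrimP {σ : Type} [Fintype σ] (A : Finset (σ →₀ ℕ)) (I : Finset σ) (y p : σ → ℚ)
    (μ : (σ →₀ ℕ) → ℚ) : Prop where
  pos : ∀ a ∈ A, 0 < μ a
  eq : ∀ i ∈ I, p i = cmb A μ i
  one : ∀ i, 0 < y i → p i = 1
  ge : ∀ i ∈ I, 1 ≤ p i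
  int : ∀ i ∈ I, (∃ z : ℤ, p i = z) → p i = 1
  gap1 : ∀ k ∈ I, y k < 1 → ∑ a ∈ A, μ a - ∑ i, y i < 1 - y k
  gap2 : ∀ k, 0 < y k → ∑ a ∈ A, μ a - ∑ i, y i < y k
  gen : ∀ q : σ → ℚ, (∀ i ∈ I, ∃ z : ℤ, q i = p i + z) →
    (∃ ν : (σ →₀ ℕ) → ℚ, (∀ a ∈ A, 0 ≤ ν a) ∧ ∀ i ∈ I, q i = cmb A ν i) →
    ∀ v : σ → ℚ, Off I v → (∀ a ∈ A, (∀ i, 0 < y i → q i = 0 → a i = 0) → dq v a = 0) →
      ∑ i, v i * (1 - p i) = 0

/-- **FRK** (easy-medium; no hypotheses).  Farkas' lemma over `ℚ` (Bartl's proof).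
Proof.  Induction on `m` (for all `V`).  `m = 0`: `g x ≤ 0` and `g (-x) ≤ 0`.  Step `m → m + 1` (last index `l`): if `f i x ≤ 0` for all `i ≠ l` implies `g x ≤ 0`, use the induction hypothesis and coefficient `0`.
Otherwise there is `x'` with `f i x' ≤ 0` (`i ≠ l`), `g x' > 0`, hence `f l x' > 0`; divide by `f l x'`: `f l x' = 1`.  Put `f' i = f i - f i x' • f l`, `g' = g - g x' • f l`.  For `x ∈ V` let `x~ = x - f l x • x'`: `f l x~ = 0`,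
`f i x~ = f' i x`, `g x~ = g' x`.  So `f' i x ≤ 0` (`i ≠ l`) implies `g' x ≤ 0`; induction: `g' = ∑ c i • f' i`, `g = ∑ c i • f i + (g x' - ∑ c i * f i x') • f l`, and the last coefficient is `≥ 0`. -/
def FrkStmt : Prop := ∀ (m : ℕ) (V : Type) [AddCommGroup V] [Module ℚ V] (f : Fin m → V →ₗ[ℚ] ℚ)
  (g : V →ₗ[ℚ] ℚ), (∀ x, (∀ i, f i x ≤ 0) → g x ≤ 0) →
  ∃ c : Fin m → ℚ, (∀ i, 0 ≤ c i) ∧ g = ∑ i, c i • f i

/-- **LPD** (medium; uses FRK).  Duality of linear programming over `ℚ`.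
Proof.  Weak duality: for feasible `y`, `l`: `c.y ≤ (l G).y = l.(G y) ≤ l.b`.  So a feasible pair with `l.b ≤ c.y` is enough.  Suppose there is none.  In `W = (ι → ℚ) × (κ → ℚ) × ℚ` (points `(y, l, τ)`) the inequalities
`- y i ≤ 0`, `- l k ≤ 0`, `(G y) k - τ b k ≤ 0`, `τ c i - (l G) i ≤ 0`, `l.b - c.y ≤ 0` imply `τ ≤ 0` (otherwise divide by `τ`).  FRK (index the finite family of functionals by `Fin m`): there are multipliers `α i, β k, ρ k, π i, γ ≥ 0`; comparing the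
coefficients of `y i`, `l k`, `τ`: `(ρ G) i ≥ γ c i`, `(G π) k ≤ γ b k`, `1 = π.c - ρ.b`.  If `γ > 0`: `π/γ`, `ρ/γ` are feasible and weak duality gives `π.c ≤ ρ.b`, contradiction.  If `γ = 0`: `π.c ≤ (l₀ G).π = l₀.(G π) ≤ 0` and
`ρ.b ≥ ρ.(G y₀) = (ρ G).y₀ ≥ 0`, contradiction. -/
def LpdStmt : Prop := ∀ (ι κ : Type) [Fintype ι] [Fintype κ] (G : κ → ι → ℚ) (b : κ → ℚ)
  (c y₀ : ι → ℚ) (l₀ : κ → ℚ), (∀ i, 0 ≤ y₀ i) → (∀ k, ∑ i, G k i * y₀ i ≤ b k) →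
  (∀ k, 0 ≤ l₀ k) → (∀ i, c i ≤ ∑ k, l₀ k * G k i) →
  ∃ (y : ι → ℚ) (l : κ → ℚ), (∀ i, 0 ≤ y i) ∧ (∀ k, ∑ i, G k i * y i ≤ b k) ∧
    (∀ k, 0 ≤ l k) ∧ (∀ i, c i ≤ ∑ k, l k * G k i) ∧ ∑ i, c i * y i = ∑ k, l k * b k

/-- **LEX** (medium; uses LPD).  The dual point and interior primal points.
Proof.  Put `s i = ∑ a ∈ A, a i`, `s.y = ∑ a ∈ A, dq y a`.  STEP 1: LPD for the variables `i ∈ I`, the constraints `y.a ≤ 1` (`a ∈ A`), `c = 1`; feasible: `y₀ = 0`, `l₀ = 1` (every `i ∈ I` occurs in some `a`).  It gives `y⁰`, `λ⁰` with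
`∑ λ⁰_a a_i ≥ 1` on `I`, `v = ∑ y⁰ = ∑ λ⁰`; all feasible `y` have `∑ y ≤ v`.  STEP 2: LPD with the additional constraint `- ∑ y ≤ - v` and `c = - s`; feasible: `y⁰`, `l₀ = 0`.  It gives `y¹` (so `∑ y¹ = v`), `λ¹ ≥ 0`, `θ ≥ 0` with
`∑ λ¹_a a_i - θ ≥ - s_i` on `I`, `- s.y¹ = ∑ λ¹ - θ v`.  Let `Y` be the set of the feasible `y` with `∑ y = v`, `s.y = s.y¹`; choose `y ∈ Y` with the largest number of positive coordinates.  `max`: `(y + y')/2 ∈ Y` has the union of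
the supports as support.  For `0 < ε`, `ε θ ≤ 1` let `μ_a = ε + (1 - ε θ) λ⁰_a + ε λ¹_a > 0`: on `I`, `cmb A μ i ≥ ε s_i + (1 - ε θ) + ε (θ - s_i) = 1`.  `∑ μ = ε |A| + (1 - ε θ) v + ε (θ v - s.y) = v + ε (|A| - s.y)`, `< ∑ y + γ` for small `ε`.
`∑_i y_i (cmb A μ i - 1) = ∑_a μ_a dq y a - v ≤ ε s.y + (1 - ε θ) v + ε ∑ λ¹ - v = 0` (`dq y a ≤ 1` in the last two parts), every summand is `≥ 0`, so `cmb A μ i = 1` if `y_i > 0`. -/
def LexStmt : Prop := ∀ (σ : Type) [Fintype σ] (A : Finset (σ →₀ ℕ)) (I : Finset σ),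
  (∀ i ∈ I, ∃ a ∈ A, a i ≠ 0) → ∃ y : σ → ℚ, DualY A I y ∧ ∀ γ : ℚ, 0 < γ →
    ∃ μ : (σ →₀ ℕ) → ℚ, (∀ a ∈ A, 0 < μ a) ∧ (∀ i ∈ I, 1 ≤ cmb A μ i) ∧
      (∀ i, 0 < y i → cmb A μ i = 1) ∧ ∑ a ∈ A, μ a < ∑ i, y i + γ

/-- **PPL** (medium; no hypotheses).  The coordinates which are forced to be 1.
Proof.  Let `Q` be the set of the `i ∈ I` with `cmb A x i = 1` for every `x` (any signs) with `cmb A x = 1` on `P` and `≥ 1` on `I`.  For `i ∈ I - Q` choose such an `x^i` with `cmb A x^i i > 1`.  `μ = (1 - η) μ₀ + η (average of the x^i)` (`μ = μ₀` if `I = Q`), `η > 0` small: `μ > 0`,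
`cmb A μ = 1` on `Q`, `> 1` on `I - Q`, `|∑ μ - ∑ μ₀| < γ`. -/
def PplStmt : Prop := ∀ (σ : Type) [Fintype σ] (A : Finset (σ →₀ ℕ)) (I P : Finset σ)
  (μ₀ : (σ →₀ ℕ) → ℚ) (γ : ℚ), 0 < γ → P ⊆ I → (∀ a ∈ A, 0 < μ₀ a) →
  (∀ i ∈ I, 1 ≤ cmb A μ₀ i) → (∀ i ∈ P, cmb A μ₀ i = 1) →
  ∃ (Q : Finset σ) (μ : (σ →₀ ℕ) → ℚ), P ⊆ Q ∧ Q ⊆ I ∧ (∀ a ∈ A, 0 < μ a) ∧
    (∀ i ∈ Q, cmb A μ i = 1) ∧ (∀ i ∈ I, i ∉ Q → 1 < cmb A μ i) ∧
    ∑ a ∈ A, μ a < ∑ a ∈ A, μ₀ a + γ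

/-- **GNB** (medium-strong; no hypotheses).  The generic point.
Proof.  Work in `I → ℚ` (restrict to `I`).  `V` = span of the `a|_I`; `1_I ∈ V` because every functional which vanishes on `A` vanishes at `1_I`.  `D = {x ∈ V : x = 0 on Q}`; `p₁ = cmb A μ₁`, `p₁ - 1_I ∈ D` is `> 0` on `I - Q`.  For every
`S ⊆ A` with `D ⊄ span S|_I` there is a linear functional `ℓ_S`, with integer coefficients, which vanishes on `S` and not on `D`.  Let `Λ` be the finite set of these `ℓ_S` and of the coordinates `i ∈ I - Q`: none vanishes on `D`, so there is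
`d ∈ D`, `d = cmb A δ`, with `ℓ d ≠ 0` for all `ℓ ∈ Λ` (a vector space over `ℚ` is not a finite union of proper subspaces: `Subspace.biUnion_ne_univ_of_top_nmem` or similar; or `d = ∑ t^j d_j`, `t` large).  `μ = μ₁ + t δ`, `p = p₁ + t d`, with
`t = 1/n`, `n` large: `μ > 0`, `p > 1` on `I - Q`, `∑ μ < ∑ μ₁ + γ`, and `ℓ p = ℓ p₁ + ℓ d/n` is not an integer for `ℓ ∈ Λ` (if `n > |ℓ d|` and `n > |ℓ d|/dist(ℓ p₁, other integers)`).
`gen`: let `q`, `ν`, `v` be given, `S = {a ∈ A : ν a > 0}`, `q ∈ span S|_I`.  If `a ∈ S` and `q i = 0`, `i ∈ I`, then `a i = 0` (`q i ≥ ν a * a i`).  So `v` vanishes on `S`.  If `D ⊆ span S|_I` then `1_I - p ∈ D` is in `span S|_I`, so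
`v.(1 - p) = 0`.  Otherwise `ℓ_S q = 0` and `q - p` is integral, so `ℓ_S p` is an integer: excluded. -/
def GnbStmt : Prop := ∀ (σ : Type) [Fintype σ] (A : Finset (σ →₀ ℕ)) (I Q : Finset σ)
  (μ₁ : (σ →₀ ℕ) → ℚ) (γ : ℚ), 0 < γ → Q ⊆ I →
  (∀ v : σ → ℚ, Off I v → (∀ a ∈ A, dq v a = 0) → ∑ i, v i = 0) → (∀ a ∈ A, 0 < μ₁ a) →
  (∀ i ∈ Q, cmb A μ₁ i = 1) → (∀ i ∈ I, i ∉ Q → 1 < cmb A μ₁ i) →
  ∃ μ : (σ →₀ ℕ) → ℚ, (∀ a ∈ A, 0 < μ a) ∧ (∀ i ∈ Q, cmb A μ i = 1) ∧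
    (∀ i ∈ I, i ∉ Q → 1 < cmb A μ i ∧ ∀ z : ℤ, cmb A μ i ≠ z) ∧
    ∑ a ∈ A, μ a < ∑ a ∈ A, μ₁ a + γ ∧
    ∀ q : σ → ℚ, (∀ i ∈ I, ∃ z : ℤ, q i = cmb A μ i + z) →
      ∀ ν : (σ →₀ ℕ) → ℚ, (∀ a ∈ A, 0 ≤ ν a) → (∀ i ∈ I, q i = cmb A ν i) →
      ∀ v : σ → ℚ, Off I v → (∀ a ∈ A, (∀ i ∈ Q, q i = 0 → a i = 0) → dq v a = 0) →
        ∑ i, v i * (1 - cmb A μ i) = 0

/-- **LPA** (easy-medium; uses LEX PPL GNB).  OUTPUT: the points `y` and `p`.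
Proof.  Every `i ∈ I` occurs in some `b ∈ B` (`flat` for the indicator of `i`).  `y` from LEX; `γ` = a third of the least of the positive numbers `1 - y k` (`k ∈ I`, `y k < 1`), `y k` (`y k > 0`) and 1.  `μ₀` from LEX, `P = {y > 0}`,
`Q`, `μ₁` from PPL, `μ` from GNB (`flat` of `FlatD` and `B ⊆ A`), `p = cmb A μ`: `∑ μ < ∑ y + 3 γ`.  In `gen` for `PrimP`: `P ⊆ Q`, so a vector `v` which vanishes on the `a` with `(i ∈ P, q i = 0 → a i = 0)` vanishes on the `a` with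
`(i ∈ Q, q i = 0 → a i = 0)`. -/
def LpaStmt : Prop := ∀ (σ : Type) [Fintype σ] (A B : Finset (σ →₀ ℕ)) (I : Finset σ),
  FlatD A B I → ∃ (y p : σ → ℚ) (μ : (σ →₀ ℕ) → ℚ), DualY A I y ∧ PrimP A I y p μ ∧ ∀ k, y k ≤ 1

/-- **DEG** (easy-medium; no hypotheses).  OUTPUT: the degree argument (3887 (4)).
Proof.  (1) `∑ i, y i * q i = ∑_a ν a * dq y a ≤ ∑ ν ≤ ∑ μ - 1`.  Subtract `∑ y`: `∑_(i ≠ k, y i > 0) y i (q i - 1) + y k q k + (1 - y k) ≤ ∑ μ - ∑ y`, and all terms on the left are `≥ 0` (`q ≥ 0` on `I`).  If `y k < 1` this contradicts `gap1`.  So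
`y k = 1`; if `q k ≠ 0` then `q k ≥ 1` (integral), against `gap2` for `k`; if `q i ≠ 1` for some `i ≠ k` with `y i > 0`, then `q i ≥ 2`, against `gap2` for `i`.  (2) `1 ≥ dq y a ≥ y k * a k + y i * a i`. -/
def DegStmt : Prop := ∀ (σ : Type) [Fintype σ] (A : Finset (σ →₀ ℕ)) (I : Finset σ) (y p : σ → ℚ)
  (μ : (σ →₀ ℕ) → ℚ), DualY A I y → PrimP A I y p μ → (∀ k, y k ≤ 1) → ∀ k ∈ I,
  (∀ (q : σ → ℚ) (ν : (σ →₀ ℕ) → ℚ), (∀ a ∈ A, 0 ≤ ν a) → (∀ i ∈ I, q i = cmb A ν i) →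
    ∑ a ∈ A, ν a ≤ ∑ a ∈ A, μ a - 1 → (∀ i, 0 < y i → ∃ z : ℤ, q i = z) →
    (∀ i, 0 < y i → i ≠ k → 1 ≤ q i) →
    y k = 1 ∧ q k = 0 ∧ ∀ i, 0 < y i → i ≠ k → q i = 1) ∧
  (y k = 1 → ∀ a ∈ A, a k ≠ 0 → a k = 1 ∧ ∀ i, 0 < y i → i ≠ k → a i = 0)

/-- **WSK** (medium-strong; no hypotheses).  OUTPUT: a good base excludes weak stable sets in `K = {y = 1}` (3887 (5)).
Proof.  `E` = the set of the `a ∈ A` with `a k ≠ 0` for some `k ∈ K'`.  For `a ∈ A`, `k ∈ K'`, `a k ≠ 0`: `a k = 1` and `a i = 0` for all `i ≠ k` with `y i > 0` (`dq y a ≤ 1`).  For `k ∈ K'` let `B_k = {b ∈ B : b k = 1}`: pairwise disjoint, contained in `E`, not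
empty (`flat` for the indicator of `k`).  Let `K_1` be the set of the `k ∈ K'` with `B_k = {b_k}`: `k` is private for `b_k`, `GoodB` gives `l k ≠ k`, `l k ∈ I`, `b_k (l k) = 1`, `l k` private for `b_k`; `y (l k) = 0`.  `ψ_k = e_(l k) - e_k` vanishes on `B`.
Suppose `rank E < 2 |K'|`.  `B ∩ E` is independent with at least `2 |K'| - |K_1|` elements.  The linear map `(ψ_k)_(k ∈ K_1) : span E → K_1 → ℚ` is 0 on `span (B ∩ E)`, so its rank is `≤ (2 |K'| - 1) - (2 |K'| - |K_1|) < |K_1|`: there is `r ≠ 0` with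
`∑ r_k ψ_k = 0` on `E`.  Wlog `K_+ = {k : r_k > 0}` is not empty; `ψ = ∑_(K_+) r_k ψ_k`.  `ψ.a ≥ 0` for `a ∈ A`: if `a k = 0` for all `k ∈ K_+` clear; if `a k = 1`, `k ∈ K_+`, then `ψ.a = ∑_(r_k' < 0) |r_k'| ψ_k'.a` and `a k' = 0` for these `k'`.  `ψ = 0` on `B`;
`min`: `ψ = 0` on `A`.  `flat`: `∑ ψ = 0`.  For small `t > 0`, `y' = y + t ψ` contradicts `DualY.max`: `y' ≥ 0` (`ψ` is negative only on `K_+`, where `y = 1`; so `t ≤ 1/max r`), and `y' (l k) > 0 = y (l k)` for `k ∈ K_+` (`ψ (l k) > 0`: the `l k'` are outside `{y > 0}`,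
coefficients positive). -/
def WskStmt : Prop := ∀ (σ : Type) [Fintype σ] (A B : Finset (σ →₀ ℕ)) (I : Finset σ) (y : σ → ℚ),
  FlatD A B I → GoodB B I → DualY A I y → ∀ K' : Finset σ, (∀ k ∈ K', y k = 1) →
    2 * K'.card ≤ Module.finrank ℚ (Submodule.span ℚ
      {v : σ → ℚ | ∃ a ∈ A, (∃ j ∈ K', a j ≠ 0) ∧ v = fun i => (a i : ℚ)})

/-- the exponent `a` outside `P` (the same as `Pool.Agent.BEZ.offP`) -/
noncomputable def offQ {σ : Type} [DecidableEq σ] (P : Finset σ) (a : σ →₀ ℕ) : σ →₀ ℕ :=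
  a.filter fun i => i ∉ P

/-- multiplication of a Laurent polynomial (exponents `σ → ℤ`) by `θ_k f`, `f = ∑ a ∈ A, c a x^a` -/
noncomputable def thf {σ R : Type} [Field R] (A : Finset (σ →₀ ℕ)) (c : (σ →₀ ℕ) → R) (k : σ)
    (h : (σ → ℤ) →₀ R) : (σ → ℤ) →₀ R :=
  h.sum fun m r => ∑ a ∈ A, Finsupp.single (fun i => m i + (a i : ℤ)) (((a k : ℕ) : R) * c a * r)

/-- **GLU** (medium; uses DEG).  OUTPUT: from the graded relation to the relation excluded by `BziStmt`.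
Proof.  Let `m ∈ (η k).support`, `k ∈ I`, `q i = m i - 1 + p i` on `I`; for `y i > 0`, `p i = 1` and `q i = m i`.  DEG (1): `y k = 1`, `m k = 0`, `m i = 1` for the other `i ∈ P`.  So `η k = 0` for `k ∈ I - K`.  For `k ∈ K` the terms `a ∈ A` of `thf` with
`a k ≠ 0` have `a k = 1`, `a = 1_k` on `P` (DEG (2)), so all monomials `m + a` which occur in `thf A c k (η k)` are `1` on `P`.  Choose `N` with `N - m₀ i + m i ≥ 0` for all `m` in the supports and all `i`, and put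
`h k = ∑_(m ∈ supp (η k)) (η k m) X^(e m)`, `e m i = N - m₀ i + m i` outside `P`, `0` on `P`.  The linear map `single m r ↦ monomial (e m) r` sends (on the monomials which are `1` on `P`) the relation to `∏_(i ∉ P) X_i ^ N = ∑_(k ∈ K) g_k h_k`. -/
def GluStmt : Prop := ∀ (σ R : Type) [Field R] [Fintype σ] [DecidableEq σ] (A : Finset (σ →₀ ℕ))
  (I P K : Finset σ) (y p : σ → ℚ) (μ : (σ →₀ ℕ) → ℚ) (c : (σ →₀ ℕ) → R) (m₀ : σ → ℤ)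
  (η : σ → (σ → ℤ) →₀ R), DualY A I y → PrimP A I y p μ → (∀ k, y k ≤ 1) →
  (∀ i, i ∈ P ↔ 0 < y i) → (∀ k, k ∈ K ↔ y k = 1) → (∀ i ∈ I, m₀ i = 1) →
  (∀ k ∈ I, ∀ m ∈ (η k).support,
    (∃ ν : (σ →₀ ℕ) → ℚ, (∀ a ∈ A, 0 ≤ ν a) ∧ (∀ i ∈ I, (m i : ℚ) - 1 + p i = cmb A ν i) ∧
      ∑ a ∈ A, ν a ≤ ∑ a ∈ A, μ a - 1) ∧ ∀ i ∈ P, i ≠ k → 1 ≤ m i) →
  ∑ k ∈ I, thf A c k (η k) = Finsupp.single m₀ 1 →
  ∃ (N : ℕ) (h : σ → MvPolynomial σ R), (∏ i ∈ Finset.univ \ P, MvPolynomial.X i) ^ N =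
    ∑ j ∈ K, (∑ a ∈ A.filter (fun a => a j ≠ 0), MvPolynomial.monomial (offQ P a) (c a)) * h j

/-- **MNF** (medium; no hypotheses).  OUTPUT: the smallest face containing the base.
Proof.  Among all `(κ', N')` with the first five properties choose one with the smallest number of elements of `A' = {a ∈ M : κ'.a = N'}` (`(κ, N)` is one).  Suppose the last property fails: `v` zero off the support of `κ`, `v.a ≥ 0` on `A'`, `v.b = 0` on `B`,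
`v.a₀ > 0` for some `a₀ ∈ A'`; multiply by a common denominator: `v` integral.  For `C` large `κ'' = C κ' + v`, `N'' = C N'`: `κ'' i > 0` where `κ i ≠ 0`, `= 0` elsewhere; for `a ∈ M - A'`, `κ'.a ≥ N' + 1` and `κ''.a ≥ C N' + C + v.a > N''`;
for `a ∈ A'`, `κ''.a = N'' + v.a ≥ N''` with equality iff `v.a = 0`.  So the new face is smaller and contains `B`; `∑ v = 0` by flatness, so the slope is the same. -/
def MnfStmt : Prop := ∀ (σ : Type) [Fintype σ] (M B : Finset (σ →₀ ℕ)) (κ : σ → ℕ) (N : ℕ),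
  0 < N → (∀ a ∈ M, N ≤ ∑ i, κ i * a i) → B ⊆ M → (∀ b ∈ B, ∑ i, κ i * b i = N) →
  (∀ v : σ → ℚ, (∀ i, κ i = 0 → v i = 0) → (∀ b ∈ B, dq v b = 0) → ∑ i, v i = 0) →
  ∃ (κ' : σ → ℕ) (N' : ℕ), 0 < N' ∧ (∀ i, κ' i = 0 ↔ κ i = 0) ∧
    (∀ a ∈ M, N' ≤ ∑ i, κ' i * a i) ∧ (∀ b ∈ B, ∑ i, κ' i * b i = N') ∧
    (∑ i, κ' i) * N = (∑ i, κ i) * N' ∧
    ∀ v : σ → ℚ, (∀ i, κ i = 0 → v i = 0) →
      (∀ a ∈ M, ∑ i, κ' i * a i = N' → 0 ≤ dq v a) → (∀ b ∈ B, dq v b = 0) →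
      ∀ a ∈ M, ∑ i, κ' i * a i = N' → dq v a = 0

end Pool.Agent.NDR
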