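import Pool.Agent.NDR.Defs
import Pool.Agent.NDR.StmtsL
import Pool.Agent.BEZ.Stmts

/-!
# Squad NDR: output of the block R (helper56) in the form used by the block L (helper30)
-/

set_option autoImplicit false

namespace Pool.Agent.NDR

open Finset Pool.Agent.Helper30_Simp

/-- **Output of block R.** `A = lev F.support κ N` is a flat face, `y, p, μ` are as in `PrimP`. If
`-|κ|/N` is not a root of `b_F` then the monomial `m₀` (`1` on `I = sup κ`) is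
`∑ (θ_k f_φ) η_k` with filled monomials of degree one less. -/
def RsoStmt : Prop :=
  ∀ (σ : Type) [Fintype σ] (F : MvPolynomial σ ℂ) (κ : σ → ℕ) (N : ℕ) (y p : σ → ℚ)
    (μ : (σ →₀ ℕ) → ℚ), (∀ u : σ → ℕ, TorusSmooth (prt F (fcn F.support u))) → 0 < N →
    (∀ α ∈ F.support, N ≤ dot κ α) → (lev F.support κ N).Nonempty →
    (∀ v : σ → ℚ, Off (sup κ) v → (∀ a ∈ lev F.support κ N, dq v a = 0) → ∑ i, v i = 0) →
    (∀ i, 0 < y i → κ i ≠ 0) → PrimP (lev F.support κ N) (sup κ) y p μ →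
    (Helper6_Mono.bfun F).eval (-(((∑ i, κ i : ℕ) : ℂ) / (N : ℕ))) ≠ 0 →
    ∃ (m₀ : σ → ℤ) (η : σ → (σ → ℤ) →₀ ℂ), (∀ i ∈ sup κ, m₀ i = 1) ∧
      (∀ k ∈ sup κ, ∀ m ∈ (η k).support,
        (∃ ν : (σ →₀ ℕ) → ℚ, (∀ a ∈ lev F.support κ N, 0 ≤ ν a) ∧
          (∀ i ∈ sup κ, (m i : ℚ) - 1 + p i = cmb (lev F.support κ N) ν i) ∧
          ∑ a ∈ lev F.support κ N, ν a ≤ ∑ a ∈ lev F.support κ N, μ a - 1) ∧
        ∀ i, 0 < y i → i ≠ k → 1 ≤ m i) ∧
      ∑ k ∈ sup κ, thf (lev F.support κ N) (fun a => MvPolynomial.coeff a F) k (η k) =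
        Finsupp.single m₀ 1

end Pool.Agent.NDR
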