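import Pool.Agent.NDR.StmtsQ
import Pool.Agent.NDR.StmtsC

/-!
# Squad NDR, block G (helper29): exactness of Koszul complexes (notes 3920 (1), 3942 (c))

OUTPUT: `GLStmt` of `Defs.lean` (row GLF). Laurent polynomials form the ring `Lr K ι`. Koszul
complexes: a chain is a function `x : Finset T → R`, `x U` is the coefficient of the wedge of the
`e_j`, `j ∈ U`. Coordinates: `I` = the coordinates with derivatives and cone conditions, `D` = dead
coordinates (all exponents are `0` there), the others are invertible parameters.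

PLAN. Wall crossing (GLW, from KUN, KAD, TOR, PAI, BSF, WLK and WamStmt of StmtsQ (proved)) gives exactness
in degrees `> s` if on every face the `θ_i f`, `i ∈ I`, and `s` further elements `η_k` of degree 1
generate the unit ideal. KRM removes the `η_k` from the complex (row RRZ). Induction on the number of
parameters (RRS, from SPH, SPI, GEN, TRS): then `θ_j f` for all coordinates may be used in the unit
ideal, but only the `θ_i f`, `i ∈ I`, are in the complex. Rows BSE, FCF, KHO, GLA, GLF: the form of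
`GLStmt`.
-/

set_option autoImplicit false

namespace Pool.Agent.NDR

open Finset

/-! ## Koszul complexes -/

section koszul

variable {T R : Type} [CommRing R]

/-- `(-1)` to the number of the elements of `U` before `j` (some fixed linear order of `T`) -/
noncomputable def sg (j : T) (U : Finset T) : ℤ := by
  classical exact (-1) ^ (U.filter fun k => WellOrderingRel k j).card

/-- Koszul differential of the elements `a j`, `j ∈ S` -/
noncomputable def kd (a : T → R) (S : Finset T) (x : Finset T → R) : Finset T → R := by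
  classical exact fun U => ∑ j ∈ S \ U, sg j U • (a j * x (insert j U))

/-- `x` is a chain of degree `i` with values in `N` -/
def Chn (S : Finset T) (N : AddSubgroup R) (i : ℕ) (x : Finset T → R) : Prop :=
  ∀ U, x U ∈ N ∧ (x U ≠ 0 → U ⊆ S ∧ U.card = i)

/-- the Koszul complex of `N / N'` is exact in degree `i` -/
def ExP (a : T → R) (S : Finset T) (N N' : AddSubgroup R) (i : ℕ) : Prop :=
  ∀ x, Chn S N i x → (∀ U, kd a S x U ∈ N') →
    ∃ y, Chn S N (i + 1) y ∧ ∀ U, x U - kd a S y U ∈ N'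

/-- `N` is stable under the `a j`, `j ∈ S` -/
def Stb (a : T → R) (S : Finset T) (N : AddSubgroup R) : Prop := ∀ j ∈ S, ∀ r ∈ N, a j * r ∈ N

end koszul

/-- **KSG** (easy-medium; no hypotheses). Sign rule and `d² = 0`.
Proof. (1) `j ≠ k`, both not in `U`: `sg j (insert k U) = sg j U * (-1)^[k before j]`, and exactly one of `k before j`,
`j before k` holds (`WellOrderingRel` is a well order: `trichotomous`, `asymm`). (2) expand `kd (kd x) U = ∑_(j ∉ U) ∑_(k ∉ U, k ≠ j) sg j U * sg k (insert j U) • a_j a_k x(U ∪ {j,k})`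
and exchange `j` and `k`: by (1) the sum is minus itself termwise (pair the terms: `Finset.sum_involution`, or split by `j before k`). (3) clear. -/
def KsgStmt : Prop :=
  ∀ (T R : Type) [DecidableEq T] [CommRing R],
    (∀ (j k : T) (U : Finset T), j ≠ k → j ∉ U → k ∉ U →
      sg j (insert k U) * sg k U = - (sg k (insert j U) * sg j U)) ∧
    (∀ (j : T) (U : Finset T), sg j U * sg j U = 1) ∧
    (∀ (a : T → R) (S : Finset T) (x : Finset T → R), kd a S (kd a S x) = 0) ∧
    (∀ (a : T → R) (S : Finset T) (N : AddSubgroup R) (i : ℕ) (x : Finset T → R), Stb a S N →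
      Chn S N (i + 1) x → Chn S N i (kd a S x))

/-- **KUN** (medium; uses KSG). Unit ideal: the Koszul complex is exact.
Proof. `h x U = ∑_(j ∈ U ∩ S) sg j (U.erase j) • (b j * x (U.erase j))`. For a chain `x`, `kd (h x) + h (kd x) = (∑_(j ∈ S) b_j a_j) x = x`: the
diagonal terms give `∑_(j ∈ S \ U) a_j b_j x U + ∑_(j ∈ U) a_j b_j x U` (`U ⊆ S`), the terms `a_j b_k x((U \ k) ∪ j)`, `j ∉ U`, `k ∈ U`, have the coefficients
`sg j U * sg k ((U \ k) ∪ j)` and `sg k (U \ k) * sg j (U \ k)`, which cancel by the sign rule for `V = U \ k`. So `kd x = 0` gives `x = kd (h x)`, and `h x` is a chain of degree `i + 1`. -/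
def KunStmt : Prop :=
  ∀ (T R : Type) [CommRing R] (a b : T → R) (S : Finset T) (N : AddSubgroup R),
    Stb a S N → Stb b S N → ∑ j ∈ S, b j * a j = 1 → ∀ i, ExP a S N ⊥ i

/-- **KAD** (medium; uses KSG). Adding one element to the sequence.
Proof. For a chain `x` put `x₀ U = x U` for `j ∉ U` and `0` for `j ∈ U`, `x₁ U = sg j U • x (insert j U)` for `j ∉ U`, `0` for `j ∈ U`; conversely `x₀, x₁` (chains for `S` of degrees `i`, `i - 1`, supported on `U ⊆ S`, so
`j ∉ U`) determine `x` (`x U = sg j (U \ j) • x₁ (U \ j)` for `j ∈ U`). Sign rule: `(kd x)₀ = kd_S x₀ + a_j x₁`, `(kd x)₁ = - kd_S x₁`. Let `x` be a cycle of degree `i ≥ n + 1`. Then `x₁` is a cycle of degree `i - 1 ≥ n`: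
`x₁ = kd_S y₁`; `x₀ + a_j y₁` is a cycle of degree `i`: `= kd_S y₀`. Then `y = (y₀, - y₁)` has `kd y = x`. -/
def KadStmt : Prop :=
  ∀ (T R : Type) [DecidableEq T] [CommRing R] (a : T → R) (S : Finset T) (j : T)
    (N : AddSubgroup R) (n : ℕ), j ∉ S → Stb a (insert j S) N → (∀ i, n ≤ i → ExP a S N ⊥ i) →
    ∀ i, n + 1 ≤ i → ExP a (insert j S) N ⊥ i

/-! ## Laurent polynomials -/

section laurent

variable {ι K : Type} [Field K]

/-- Laurent polynomials -/
abbrev Lr (K ι : Type) [Field K] : Type := AddMonoidAlgebra K (ι → ℤ)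

/-- the Laurent polynomials with exponents in `Q` -/
def MS (K : Type) [Field K] (Q : Set (ι → ℤ)) : AddSubgroup (Lr K ι) where
  carrier := {h | ∀ m, h.coeff m ≠ 0 → m ∈ Q}
  zero_mem' := by
    intro m hm
    simp at hm
  add_mem' := by
    intro a b ha hb m hm
    by_contra hc
    have h1 : a.coeff m = 0 := by
      by_contra h
      exact hc (ha m h)
    have h2 : b.coeff m = 0 := by
      by_contra h
      exact hc (hb m h)
    apply hm
    simp [h1, h2]
  neg_mem' := by
    intro a ha m hm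
    apply ha m
    intro h
    apply hm
    simp [h]

/-- `θ_v h = ∑ m_v h_m x^m` -/
noncomputable def tht (v : ι) (h : Lr K ι) : Lr K ι :=
  AddMonoidAlgebra.ofCoeff (h.coeff.sum fun m c => Finsupp.single m (((m v : ℤ) : K) * c))

/-- the part of `h` with exponents in `Q` -/
noncomputable def cut (Q : Set (ι → ℤ)) (h : Lr K ι) : Lr K ι := by
  classical exact AddMonoidAlgebra.ofCoeff (h.coeff.filter fun m => m ∈ Q)

/-- the exponents over `F` (equal to some `a ∈ F` in the coordinates `I`) -/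
def ov (I : Finset ι) (F : Finset (ι → ℤ)) : Set (ι → ℤ) := {e | ∃ a ∈ F, ∀ i ∈ I, e i = a i}

/-- the exponents which are zero in the dead coordinates -/
def dd (D : Finset ι) : Set (ι → ℤ) := {e | ∀ j ∈ D, e j = 0}

/-- the region of the cone of `A` with shift `v` -/
def RG (I D : Finset ι) (A : Finset (ι → ℤ)) (v : ι → ℝ) : Set (ι → ℤ) :=
  {e | InC I A (shv v e) ∧ e ∈ dd D}

/-- the torus: exponents in the span of `A` with shift `v` -/
def TG (I D : Finset ι) (A : Finset (ι → ℤ)) (v : ι → ℝ) : Set (ι → ℤ) :=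
  {e | InS I A (shv v e) ∧ e ∈ dd D}

/-- the operators: `θ_i f` for `inl i`, `η k` for `inr k` -/
noncomputable def opg (f : Lr K ι) (η : ℕ → Lr K ι) : ι ⊕ ℕ → Lr K ι := Sum.elim (fun v => tht v f) η

/-- index set: the coordinates in `T` and the numbers `< s` -/
def ix (T : Finset ι) (s : ℕ) : Finset (ι ⊕ ℕ) := T.disjSum (Finset.range s)

/-- faces of `A`: obtained by repeatedly taking the zero set of a functional (off `I` zero) which is
`≥ 0` -/
inductive IsF [Fintype ι] (I : Finset ι) (A : Finset (ι → ℤ)) : Finset (ι → ℤ) → Prop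
  | base : IsF I A A
  | step (F : Finset (ι → ℤ)) (ψ : ι → ℤ) : IsF I A F → (∀ i, i ∉ I → ψ i = 0) →
      (∀ a ∈ F, 0 ≤ pr ψ a) → IsF I A (F.filter fun a => pr ψ a = 0)

/-- the `θ_i f_F` for `i ∈ E` and the `(η_k)_F`, `k < s`, generate the unit ideal -/
def Ung (E I : Finset ι) (F : Finset (ι → ℤ)) (f : Lr K ι) (s : ℕ) (η : ℕ → Lr K ι) : Prop :=
  ∃ (b : ι → Lr K ι) (b' : ℕ → Lr K ι), ∑ i ∈ E, b i * tht i (cut (ov I F) f) +
    ∑ k ∈ Finset.range s, b' k * cut (ov I F) (η k) = 1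

/-- the coordinates `T ⊆ I` form a basis of the coordinate functions `i ∈ I` on `A` -/
def Bs (I : Finset ι) (A : Finset (ι → ℤ)) (T : Finset ι) : Prop :=
  T ⊆ I ∧ (∀ i ∈ I, ∃ c : ι → ℚ, ∀ a ∈ A, (a i : ℚ) = ∑ j ∈ T, c j * (a j : ℚ)) ∧
    ∀ c : ι → ℚ, (∀ a ∈ A, ∑ j ∈ T, c j * (a j : ℚ) = 0) → ∀ j ∈ T, c j = 0

/-- substitution `x_r = t` (and base change `K → K'`) -/
noncomputable def spz {K' : Type} [Field K'] [Algebra K K'] [DecidableEq ι] (r : ι) (t : K')
    (h : Lr K ι) : Lr K' ι :=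
  AddMonoidAlgebra.ofCoeff (h.coeff.sum fun m c =>
    Finsupp.single (Function.update m r 0) (t ^ (m r) * algebraMap K K' c))

/-- the monomial `x_r` -/
noncomputable def xr (K : Type) [Field K] [DecidableEq ι] (r : ι) : Lr K ι :=
  AddMonoidAlgebra.single (Pi.single r 1) 1

/-- the constant `c` -/
noncomputable def cst (ι : Type) (c : K) : Lr K ι := AddMonoidAlgebra.single 0 c

end laurent

/-- **KRM** (medium; uses KSG). Removing one element of degree `N > 0`, graded modules bounded below.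
Proof. Decomposition `x = (x₀, x₁)` as in KAD. For `h ∈ Lr K ι` let `h^(δ)` be the part with `pr κ m = δ`; `(a_t h)^(δ) = a_t h^(δ - N)` for `t ∈ insert j S`. It is enough to treat cycles `x` of degree `i ≥ n` for `S`
with all `x U` homogeneous of degree `δ` (the homogeneous parts of a cycle are cycles, finitely many are not zero, add the `y`). Induction on `δ` (from below: `x = 0` if `δ < δ₀`; strong induction on `(δ - δ₀).toNat`). `x` is a cycle for `insert j S`:
`x = kd y`, i.e. `x = kd_S y₀ + a_j y₁`, `0 = kd_S y₁`, `y₁` a chain for `S` of degree `i` in `MS Q`. Take the parts of degree `δ - N` of `y₀, y₁`: the same equations. By induction `y₁^(δ - N) = kd_S w`, so `x = kd_S (y₀^(δ - N) + a_j w)`. -/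
def KrmStmt : Prop :=
  ∀ (T ι K : Type) [Fintype ι] [DecidableEq T] [Field K] (κ : ι → ℤ) (N δ₀ : ℤ)
    (Q : Set (ι → ℤ)) (a : T → Lr K ι) (S : Finset T) (j : T) (n : ℕ), 0 < N → j ∉ S →
    (∀ t ∈ insert j S, ∀ m, (a t).coeff m ≠ 0 → pr κ m = N ∧ ∀ e ∈ Q, e + m ∈ Q) →
    (∀ e ∈ Q, δ₀ ≤ pr κ e) → (∀ i, n ≤ i → ExP a (insert j S) (MS K Q) ⊥ i) →
    ∀ i, n ≤ i → ExP a S (MS K Q) ⊥ i

/-- **KHO** (easy-medium; uses KSG). Exactness in degree 1 in terms of families.
Proof. `X U = x_j` for `U = {j}`, `j ∈ S`, else `0`: a chain of degree 1, `kd X ∅ = ∑ sg j ∅ • a_j x_j = 0` (`sg j ∅ = 1`), `kd X U = 0` for `U ≠ ∅` (`insert k U = {j}` only if `U ⊆ {j}`). So `X = kd Y`, `Y` of degree 2. For `j ≠ k` put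
`y j k = sg k {j} • Y {j, k}` and `y j j = 0`; `sg k {j} = - sg j {k}` (sign rule with `U = ∅`) gives antisymmetry, and `x_j = kd Y {j} = ∑_(k ∈ S, k ≠ j) sg k {j} • a_k Y {j,k}`. -/
def KhoStmt : Prop :=
  ∀ (T R : Type) [DecidableEq T] [CommRing R] (a : T → R) (S : Finset T) (N : AddSubgroup R),
    ExP a S N ⊥ 1 → ∀ x : T → R, (∀ j ∈ S, x j ∈ N) → ∑ j ∈ S, a j * x j = 0 →
    ∃ y : T → T → R, (∀ j k, y j k = - y k j) ∧ (∀ j k, y j k ∈ N) ∧
      ∀ j ∈ S, x j = ∑ k ∈ S, a k * y j k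

/-! ## Wall crossing -/

/-- **WLK** (medium; uses KSG). Walk through the slices.
Proof. Let `x` be a cycle of degree `i` in `N(0)`, `N(t)` = elements with support in `{e ∈ Λ : time e ≤ t}`. By exactness of `MS Λ` there is a chain `y` in `MS Λ` with `kd y = x`. Let `t` be the largest value of `time` on the
supports of the `y U` (finitely many `U ⊆ S`; `y U = 0` otherwise). Induction on the number of the values of `time` in `(0, t]` (finite). If `t ≤ 0` done (`time ≥ 0`). If `t > 0`: `kd y = x` lies in the elements with support in `{time < t}`, so the pair hypothesis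
in degree `i + 1` gives `w` with `y - kd w` supported in `{time < t}`; `kd (y - kd w) = x`, and its largest value `t'` is smaller: the values in `(0, t']` are fewer. -/
def WlkStmt : Prop :=
  ∀ (T ι K : Type) [Field K] (a : T → Lr K ι) (S : Finset T)
    (Λ : Set (ι → ℤ)) (time : (ι → ℤ) → ℝ) (i : ℕ), (∀ e, 0 ≤ time e) → (∀ t : ℝ, {s : ℝ | s ≤ t ∧ ∃ e, time e = s}.Finite) →
    (∀ j ∈ S, ∀ m, (a j).coeff m ≠ 0 → ∀ e ∈ Λ, e + m ∈ Λ ∧ time (e + m) ≤ time e) →
    ExP a S (MS K Λ) ⊥ i →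
    (∀ e₀ ∈ Λ, 0 < time e₀ → ExP a S (MS K {e | e ∈ Λ ∧ time e ≤ time e₀})
      (MS K {e | e ∈ Λ ∧ time e < time e₀}) (i + 1)) →
    ExP a S (MS K {e | e ∈ Λ ∧ time e = 0}) ⊥ i

/-- **BSE** (easy-medium; no hypotheses). A basis of the coordinate functions.
Proof. The functions `g_i : A → ℚ`, `a ↦ a i`, `i ∈ I`: take a maximal subset `T ⊆ I` for which the family `(g_j)_(j ∈ T)` is independent (in the sense of the third condition; e.g. `Finset.exists_maximal` or a subset of largest cardinality);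
if `i ∈ I \ T` then `insert i T` is dependent and the coefficient of `g_i` is not `0`. -/
def BseStmt : Prop :=
  ∀ (ι : Type) [Fintype ι] (I : Finset ι) (A : Finset (ι → ℤ)), ∃ T, Bs I A T

/-- **BSF** (easy-medium; no hypotheses). Basis for a facet.
Proof. `ψ` vanishes off `I`, so on `A` it is `∑_(j ∈ T) c_j a_j` (replace every `a_i`, `i ∈ I`, by its combination). Not all `c_j = 0` since `ψ ≠ 0` at some `a`; let `c_(j₀) ≠ 0`. On `A' = {ψ = 0}`: `a_(j₀) = - ∑_(j ≠ j₀) (c_j / c_(j₀)) a_j`, so `T.erase j₀` spans. Independent: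
if `χ = ∑_(j ∈ T \ j₀) d_j x_j` vanishes on `A'` then `χ = l ψ` on `A` by the last hypothesis, so by independence of `T` on `A` the coefficient of `x_(j₀)`: `0 = l c_(j₀)`, `l = 0`, `χ = 0` on `A`, all `d_j = 0`. -/
def BsfStmt : Prop :=
  ∀ (ι : Type) [Fintype ι] [DecidableEq ι] (I : Finset ι) (A : Finset (ι → ℤ)) (T : Finset ι)
    (ψ : ι → ℤ), Bs I A T → (∀ i, i ∉ I → ψ i = 0) → (∃ a ∈ A, pr ψ a ≠ 0) →
    (∀ χ : ι → ℚ, (∀ i, i ∉ I → χ i = 0) → (∀ a ∈ A, pr ψ a = 0 → pr χ a = 0) →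
      ∃ l : ℚ, ∀ a ∈ A, pr χ a = l * ((pr ψ a : ℤ) : ℚ)) →
    ∃ j₀ ∈ T, Bs I (A.filter fun a => pr ψ a = 0) (T.erase j₀)

/-- **TOR** (medium; uses KUN). Exactness on the torus.
Proof. Write `c_ij` for the coefficients of `Bs`: `tht i f = ∑_(j ∈ T) c_ij tht j f` for `i ∈ I` (exponents of `f` are over `A`; `char K = 0`). `cut (ov I A) f = f`, same for `η`. So `∑_(j ∈ T) B_j tht j f + ∑_(k < s) b'_k η_k = 1`, `B_j = ∑_(i ∈ I) c_ij b_i`. Let `G` be the
subgroup of the `e : ι → ℤ` with `e` in the real span of `A` in the coordinates `I` and `e = 0` on `D`. All exponents of `tht j f`, `η_k` lie in `G`, so cutting the identity to exponents in `G` we may replace `B_j`, `b'_k` by `cut G B_j`, `cut G b'_k` (`cut G (b * g) = cut G b * g` if the exponents of `g`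
are in the subgroup `G`). `TG I D A v + G ⊆ TG I D A v`. KUN for the index set `ix T s`. -/
def TorStmt : Prop :=
  ∀ (ι : Type) [Fintype ι] (K : Type) [Field K] [CharZero K] (I D : Finset ι)
    (A : Finset (ι → ℤ)) (f : Lr K ι) (s : ℕ) (η : ℕ → Lr K ι),
    f ∈ MS K (ov I A ∩ dd D) → (∀ k, η k ∈ MS K (ov I A ∩ dd D)) → Ung I I A f s η →
    ∀ (v : ι → ℝ) (T : Finset ι), Bs I A T → ∀ i,
      ExP (opg f η) (ix T s) (MS K (TG I D A v)) ⊥ i

/-- **PAI** (easy-medium; uses KSG). From a slice to a pair.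
Proof. Split `x = x' + x''` with `x' = cut Q x`, `x'' ∈ MS Q'` (`Q ∪ Q'` is the big set, disjoint). `kd_a x ∈ MS Q'` gives `kd_(a') x' ∈ MS Q' ∩ MS Q = 0` because `(a j - a' j) x' ∈ MS Q'`, `a j x'' ∈ MS Q'`, `a' j x' ∈ MS Q`. So `x' = kd_(a') y`, `y` a chain in `MS Q`, and
`x - kd_a y = x'' - kd_(a - a') y ∈ MS Q'`. -/
def PaiStmt : Prop :=
  ∀ (T ι K : Type) [Field K] (a a' : T → Lr K ι) (S : Finset T) (Q Q' : Set (ι → ℤ)) (i : ℕ),
    Disjoint Q Q' → (∀ j ∈ S, ∀ m, (a' j).coeff m ≠ 0 → ∀ e ∈ Q, e + m ∈ Q) →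
    (∀ j ∈ S, ∀ m, (a j - a' j).coeff m ≠ 0 → ∀ e ∈ Q, e + m ∈ Q') →
    (∀ j ∈ S, ∀ m, (a j).coeff m ≠ 0 → ∀ e ∈ Q', e + m ∈ Q') →
    ExP a' S (MS K Q) ⊥ i → ExP a S (MS K (Q ∪ Q')) (MS K Q') i

/-- **GLW** (medium-strong; uses WAM KAD TOR PAI BSF WLK). Wall crossing.
Proof. Strong induction on `A.card` (all `f, η, v, T`). `A = ∅`: `T = ∅` (independence), chains of degree `i ≥ s + 1` for `ix ∅ s` are `0` (`card (ix ∅ s) = s`). Let `A ≠ ∅`, `time` from WamStmt for `I, A, v`, `Λ = TG I D A v`; `{e ∈ Λ : time e = 0} = RG I D A v`. Apply WLK: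
exponents `m` of the operators are over `A` (and `0` on `D`): `e + m` and `e + a` agree on `I`, so `e + m ∈ Λ` and `time (e + m) = time (e + a) ≤ time e`. Exactness of `MS Λ` is TOR (`Ung` for the face `A` itself). Slices: let `e₀ ∈ Λ`, `time e₀ = t > 0`, `ψ`, `v'` from WamStmt, `A' = {a ∈ A : ψ·a = 0}`
(proper subset), `f' = cut (ov I A') f`, `η' k = cut (ov I A') (η k)`, `Q = {e ∈ Λ : time e = t} = RG I D A' v'`, `Q' = {e ∈ Λ : time e < t}`. BSF gives `j₀`; induction for `A'`, `f'`, `η'`, `v'`, `T.erase j₀` gives exactness in all degrees `≥ s + 1`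
(faces of `A'` are faces of `A`: induction on `IsF`; `cut (ov I F) (cut (ov I A') f) = cut (ov I F) f` for `F ⊆ A'`); KAD for `inl j₀` (`ix T s = insert (inl j₀) (ix (T.erase j₀) s)`) gives exactness of `opg f' η'`, `ix T s` in degrees `≥ s + 2`, in particular in degree `i + 1`. PAI with `a' = opg f' η'`:
exponents of `opg f η - opg f' η'` are over some `a ∈ A` with `ψ·a > 0`, so `time (e + m) < t` for `e ∈ Q`. -/
def GlwStmt : Prop :=
  ∀ (ι : Type) [Fintype ι] (K : Type) [Field K] [CharZero K] (I D : Finset ι), Disjoint I D →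
    ∀ (A : Finset (ι → ℤ)) (f : Lr K ι) (s : ℕ) (η : ℕ → Lr K ι),
      f ∈ MS K (ov I A ∩ dd D) → (∀ k, η k ∈ MS K (ov I A ∩ dd D)) →
      (∀ F, IsF I A F → F.Nonempty → Ung I I F f s η) →
      ∀ (v : ι → ℝ) (T : Finset ι), Bs I A T → ∀ i, s + 1 ≤ i →
        ExP (opg f η) (ix T s) (MS K (RG I D A v)) ⊥ i

/-! ## Parameters -/

/-- the statement with parameters, for the dead set `D` (all coordinates outside `I` and `D` are
parameters); `K` is algebraically closed -/
def RR (ι : Type) [Fintype ι] (I : Finset ι) (A : Finset (ι → ℤ)) (D : Finset ι) : Prop :=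
  ∀ (K : Type) [Field K] [CharZero K] [IsAlgClosed K] (f : Lr K ι) (s : ℕ) (η : ℕ → Lr K ι),
    f ∈ MS K (ov I A ∩ dd D) → (∀ k, η k ∈ MS K (ov I A ∩ dd D)) →
    (∀ F, IsF I A F → F.Nonempty → ∃ E : Finset ι, Disjoint E D ∧ Ung E I F f s η) →
    ∀ (v : ι → ℝ) (T : Finset ι), Bs I A T → ∀ i, s + 1 ≤ i →
      ExP (opg f η) (ix T 0) (MS K (RG I D A v)) ⊥ i

/-- `A` lies on the hyperplane `κ·a = N > 0` -/
def Hgt {ι : Type} [Fintype ι] (I : Finset ι) (A : Finset (ι → ℤ)) (κ : ι → ℤ) (N : ℤ) : Prop :=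
  0 < N ∧ (∀ i, i ∉ I → κ i = 0) ∧ ∀ a ∈ A, pr κ a = N

/-- **RRZ** (medium; uses GLW KRM). No parameters.
Proof. Every coordinate is in `I` or in `D`. `E` disjoint from `D` means `E ⊆ I`, so `Ung I I F` (take `b i = 0` for `i ∉ E`). GLW: exactness for `ix T s` in degrees `≥ s + 1`. Remove `inr (s-1), .., inr 0` with KRM (`ix T (k+1) = insert (inr k) (ix T k)`): the exponents `m` of `tht j f`, `η k` are over `A`,
so `pr κ m = N`, and `e + m ∈ RG I D A v` for `e ∈ RG I D A v` (add `1` to the coefficient of `a`); lower bound: `e + v` in the cone gives `pr κ e + ∑ κ_i v_i = N ∑ l_a ≥ 0`. -/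
def RrzStmt : Prop :=
  ∀ (ι : Type) [Fintype ι] (I : Finset ι) (A : Finset (ι → ℤ)) (D : Finset ι) (κ : ι → ℤ) (N : ℤ),
    Hgt I A κ N → Disjoint I D → (∀ i, i ∈ I ∨ i ∈ D) → RR ι I A D

/-- **SPH** (medium; no hypotheses). The substitution `x_r = t` is a ring homomorphism.
Proof. On monomials `x^m ↦ t^(m r) x^(m with m_r = 0)` is multiplicative (`t ≠ 0`, `zpow_add₀`; `Function.update (m + m') r 0 = update m r 0 + update m' r 0`), extend linearly (`AddMonoidAlgebra.lift` or induction on the support). (3) `tht i` multiplies `x^m` by `m_i`, unchanged for `i ≠ r`. (4) `r ∉ I`: `m` is over `F`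
iff `update m r 0` is. (5) (`K' = K`, `t = c`) `x_r^k - c^k` is a multiple of `x_r - c` in `Lr K ι` for all `k ∈ ℤ` with a cofactor in `x_r` only; so `h = ∑ h_m x^m = ∑ h_m (x_r^(m r) - c^(m r)) x^(m') + ∑ h_m c^(m r) x^(m')`, `m' = update m r 0`, and the last sum is `spz r c h = 0`. The exponents of the cofactor
differ from exponents of `h` only in the coordinate `r`. (6) `x_r - c` is not a zero divisor: if `(x_r - c) g = 0`, `g ≠ 0`, take an exponent `m` of `g` with the largest `m_r`: the coefficient of `m + e_r` is `g_m ≠ 0`. (7) clear. -/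
def SphStmt : Prop :=
  ∀ (ι K : Type) [DecidableEq ι] [Field K] (r : ι),
    (∀ (K' : Type) [Field K'] [Algebra K K'] (t : K'), t ≠ 0 →
      (∃ φ : Lr K ι →+* Lr K' ι, ∀ h, φ h = spz r t h) ∧
      (∀ i, i ≠ r → ∀ h : Lr K ι, spz r t (tht i h) = tht i (spz r t h)) ∧
      (∀ (I : Finset ι) (F : Finset (ι → ℤ)) (h : Lr K ι), r ∉ I →
        spz r t (cut (ov I F) h) = cut (ov I F) (spz r t h))) ∧
    (∀ (c : K) (h : Lr K ι) (Q : Set (ι → ℤ)), c ≠ 0 → (∀ m ∈ Q, ∀ n : ℤ, Function.update m r n ∈ Q) →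
      h ∈ MS K Q → spz r c h = 0 → ∃ g ∈ MS K Q, h = (xr K r - cst ι c) * g) ∧
    (∀ (c : K) (g : Lr K ι), (xr K r - cst ι c) * g = 0 → g = 0) ∧
    (∀ (c : K) (h : Lr K ι), (∀ m, h.coeff m ≠ 0 → m r = 0) → spz r c h = h)

/-- **SPI** (medium; uses KSG SPH). Injectivity of `x_r - c`.
Proof. `φ = spz r c` applied to `y` (all `y U`) is a chain of degree `i + 1` in the region with `r` dead, and `kd_(a_c) (φ y) = φ (kd_a y) = φ ((x_r - c) z) = 0`. By hypothesis `φ y = kd_(a_c) w`, `w` a chain in the region with `r` dead, so `φ (w U) = w U` and `w` is also a chain in `MS Q`.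
`φ (kd_a w) = kd_(a_c) w = φ y`, so `y U - kd_a w U = (x_r - c) y' U` with `y' U ∈ MS Q` (take `y' U = 0` if the left side is `0`: then `y'` is a chain of degree `i + 1`). `(x_r - c) kd_a y' = kd_a y - 0 = (x_r - c) z`, cancel `x_r - c`: `z = kd_a y'`. -/
def SpiStmt : Prop :=
  ∀ (T ι K : Type) [DecidableEq ι] [Field K] (r : ι) (c : K) (a : T → Lr K ι) (S : Finset T)
    (Q : Set (ι → ℤ)) (i : ℕ), c ≠ 0 → (∀ m ∈ Q, ∀ n : ℤ, Function.update m r n ∈ Q) →
    (∀ j ∈ S, ∀ m, (a j).coeff m ≠ 0 → ∀ e ∈ Q, e + m ∈ Q) →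
    ExP (fun j => spz r c (a j)) S (MS K (Q ∩ {m | m r = 0})) ⊥ (i + 1) →
    ∀ z y : Finset T → Lr K ι, Chn S (MS K Q) i z → Chn S (MS K Q) (i + 1) y →
      (∀ U, kd a S y U = (xr K r - cst ι c) * z U) →
      ∃ y', Chn S (MS K Q) (i + 1) y' ∧ ∀ U, kd a S y' U = z U

/-- **DEV** (medium; uses CID SPH). Derivations of the coefficients (the radical form of generic smoothness). `g` is a Laurent polynomial
over `K`, `F₁ = K(X)`, `g_t = spz r t g` with `t = X`. If the ideal `𝔞` of `Lr F₁ ι` contains `g_t` and all `θ_i g_t`, `i ≠ r`, then it contains a power of `(θ_r g)_t`.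
Proof. `δ = X d/dX`, a derivation of `F₁` (extend the derivation `X * derivative` of `K[X]` to the fraction field: the ring homomorphism `K[X] → TrivSqZeroExt F₁ F₁`, `a ↦ (a, δ a)`, maps nonzero elements to units, `IsLocalization.lift`; or the quotient rule; see row CFR of StmtsC for the same step). Choose a monomial `x^n`, `n : ι → ℕ`,
such that `x^n g_t` has exponents `≥ 0` and let `G : MvPolynomial ι F₁` be this polynomial (`θ_r (g_t) = 0`: all exponents of `g_t` have `m_r = 0`). `CID`: `cfD δ G` is in the radical of the ideal generated by `G` and the `pderiv l G`. Map `MvPolynomial ι F₁ → Lr F₁ ι` (`X i ↦ x_i`): `G ↦ x^n g_t ∈ 𝔞`,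
`x_l pderiv l G ↦ θ_l (x^n g_t) = x^n (n_l g_t + θ_l g_t) ∈ 𝔞` (for `l = r`: `n_r x^n g_t ∈ 𝔞`), so `pderiv l G ↦` an element of `𝔞` (`x_l` is a unit), and `cfD δ G ↦ x^n (θ_r g)_t` because `δ` of the coefficient `∑ g_m X^(m r)` is `∑ m_r g_m X^(m r)`. So a power of `x^n (θ_r g)_t` is in `𝔞`; `x^n` is a unit. -/
def DevStmt : Prop :=
  ∀ (ι K : Type) [Fintype ι] [DecidableEq ι] [Field K] [CharZero K] (r : ι) (g : Lr K ι)
    (𝔞 : Ideal (Lr (FractionRing (Polynomial K)) ι)),
    spz r (algebraMap (Polynomial K) (FractionRing (Polynomial K)) Polynomial.X) g ∈ 𝔞 →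
    (∀ i, i ≠ r → tht i (spz r (algebraMap (Polynomial K) (FractionRing (Polynomial K)) Polynomial.X) g) ∈ 𝔞) →
    ∃ n : ℕ, spz r (algebraMap (Polynomial K) (FractionRing (Polynomial K)) Polynomial.X) (tht r g) ^ n ∈ 𝔞

/-- **GEN** (medium; uses SPH DEV). The generic fibre is nondegenerate.
Proof. `F₁ = FractionRing K[X]`, `t = X`. Let `E`, `b`, `b'` be as in `Ung E I F f s η`, `g = cut (ov I F) f`. If `r ∉ E` apply `spz r t`. If `r ∈ E`: apply `spz r t` (SPH): `∑_(i ∈ E \ r) (b_i)_t tht i (g_t) + (b_r)_t (θ_r g)_t + ∑ (b'_k)_t (cut (η k))_t = 1`.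
Let `𝔞` be the ideal generated by the `tht i g_t` for all `i ≠ r`, `i ∉ D`, and the `(cut (η k))_t`, `k < s`. `g_t ∈ 𝔞`: `∑_i κ_i tht i g_t = N g_t` (exponents of `g_t` are over `F ⊆ A`), `κ` is zero off `I`, `r ∉ I`, `N ≠ 0`. `tht i g_t = 0 ∈ 𝔞` for `i ∈ D` (exponents zero there).
DEV: `(θ_r g)_t ^ n ∈ 𝔞`; so modulo `𝔞` the element `1 = (b_r)_t (θ_r g)_t` is nilpotent: `1 ∈ 𝔞`. This is `Ung (univ \ (insert r D))` over `F₁`; map it to `K' = AlgebraicClosure F₁` (coefficientwise ring homomorphism; it commutes with `tht`, `cut`). `cut (ov I F) (spz r t f) = spz r t g`. -/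
def GenStmt : Prop :=
  ∀ (ι K : Type) [Fintype ι] [DecidableEq ι] [Field K] [CharZero K] (I : Finset ι)
    (A : Finset (ι → ℤ)) (D : Finset ι) (κ : ι → ℤ) (N : ℤ) (r : ι) (F : Finset (ι → ℤ))
    (f : Lr K ι) (s : ℕ) (η : ℕ → Lr K ι), Hgt I A κ N → Disjoint I D → r ∉ I → r ∉ D → F ⊆ A →
    f ∈ MS K (ov I A ∩ dd D) → (∀ k, η k ∈ MS K (ov I A ∩ dd D)) →
    (∃ E : Finset ι, Disjoint E D ∧ Ung E I F f s η) →
    ∃ E : Finset ι, Disjoint E (insert r D) ∧
      Ung E I F (spz r (algebraMap (Polynomial K) (AlgebraicClosure (FractionRing (Polynomial K))) Polynomial.X) f) s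
        (fun k => spz r (algebraMap (Polynomial K) (AlgebraicClosure (FractionRing (Polynomial K))) Polynomial.X) (η k))

/-- **TRS** (medium; uses SPH). Torsion: from the closure of `K(x_r)` to `K[x_r]`.
Proof. `K' = AlgebraicClosure F₁`, `F₁ = FractionRing K[X]`, `t` = image of `X`. For `x U` the elements `spz r t (x U)` form a cycle for `a_t` over `K'`, so they are `kd_(a_t) y'`, `y'` over `K'` in the region `Q`, `r` dead. Let `ρ : K' → F₁` be an `F₁`-linear map with `ρ 1 = 1` (`Module.exists...`: `F₁` is a direct summand,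
e.g. `LinearMap.exists_leftInverse_of_injective`). Apply `ρ` to all coefficients: it commutes with multiplication by elements with coefficients in `F₁`, so `y'' = ρ y'` over `F₁` has `kd_(a_t) y'' = spz r t x` (over `F₁`). Multiply by a common denominator `q ∈ K[X]`, `q ≠ 0`: all coefficients of `q y'' U` are polynomials in `X`;
`q y'' U = spz r X (y U)` with `y U = ∑ (coefficient polynomial)(x_r) x^m ∈ MS Q` (chain again). `spz r X : Lr K ι → Lr F₁ ι` is injective (the monomials `X^n x^m`, `n ∈ ℤ`, `m_r = 0`, are independent over `K`), so `kd_a y = q(x_r) x`. -/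
def TrsStmt : Prop :=
  ∀ (T ι K : Type) [DecidableEq ι] [Field K] (r : ι) (a : T → Lr K ι) (S : Finset T)
    (Q : Set (ι → ℤ)) (i : ℕ), (∀ m ∈ Q, ∀ n : ℤ, Function.update m r n ∈ Q) →
    ExP (fun j => spz r (algebraMap (Polynomial K) (AlgebraicClosure (FractionRing (Polynomial K))) Polynomial.X) (a j))
      S (MS (AlgebraicClosure (FractionRing (Polynomial K))) (Q ∩ {m | m r = 0})) ⊥ i →
    ∀ x : Finset T → Lr K ι, Chn S (MS K Q) i x → kd a S x = 0 →
      ∃ (q : Polynomial K) (y : Finset T → Lr K ι), q ≠ 0 ∧ Chn S (MS K Q) (i + 1) y ∧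
        ∀ U, kd a S y U = (q.sum fun n c => cst ι c * xr K r ^ n) * x U

/-- **RRS** (medium-strong; uses KSG SPH SPI GEN TRS). Induction step: one parameter `r` more.
Proof. Let `i ≥ s + 1`, `Q = RG I D A v` (it does not restrict the coordinate `r`; `Q ∩ {m_r = 0} = RG I (insert r D) A v`), `S = ix T 0`, `a = opg f η`; `spz r t (a (inl j)) = tht j (spz r t f)` for `j ∈ T ⊆ I`. (a) `K' = AlgebraicClosure (FractionRing K[X])`: GEN and `RR` for `insert r D` over `K'`, `spz r t f`,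
`spz r t (η k)`, the same `s`, give exactness in degree `i` over `K'`. TRS: for a cycle `x` of degree `i` there are `q ≠ 0`, `y` with `kd y = q(x_r) x`. (b) `K` is algebraically closed: `q` splits (`IsAlgClosed.splits`). Induction on the degree of `q` (all `x`, `y`): degree `0`: divide by the constant. `q = (X - c) q₁`:
if `c = 0`, `x_r` is invertible: `kd (x_r⁻¹ y) = q₁(x_r) x`. If `c ≠ 0`: `z = q₁(x_r) x`, `kd y = (x_r - c) z`; SPI needs exactness in degree `i + 1 ≥ (s + 1) + 1` for `spz r c f`: it follows from `RR` for `insert r D` over `K` with the `s + 1` elements `spz r c (η k)`, `k < s`, and `spz r c (tht r f)`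
(hypothesis `Ung E`: apply the ring homomorphism `spz r c` to the given identity: the term of `r ∈ E` is `spz r c (b_r) * cut (ov I F) (spz r c (tht r f))`, use `E.erase r`). So `kd y' = z = q₁(x_r) x`. -/
def RrsStmt : Prop :=
  ∀ (ι : Type) [Fintype ι] [DecidableEq ι] (I : Finset ι) (A : Finset (ι → ℤ)) (D : Finset ι)
    (κ : ι → ℤ) (N : ℤ) (r : ι), Hgt I A κ N → Disjoint I D → r ∉ I → r ∉ D →
    RR ι I A (insert r D) → RR ι I A D

/-- **FCF** (easy; no hypotheses). Faces of faces are faces.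
Proof. Induction on `IsF`: `A` is given by `u = 0`. If `F` is given by `u` and `ψ ≥ 0` on `F`, take `n u + ψ` for a natural number `n` larger than all `|ψ·a|`, `a ∈ A`: `≥ 0` on `A`; zero exactly at the `a` with `u·a = 0`, `ψ·a = 0` (for `u·a ≥ 1`: `n u·a + ψ·a > 0`). -/
def FcfStmt : Prop :=
  ∀ (ι : Type) [Fintype ι] (I : Finset ι) (A F : Finset (ι → ℤ)), IsF I A F →
    ∃ u : ι → ℤ, (∀ i, i ∉ I → u i = 0) ∧ (∀ a ∈ A, 0 ≤ pr u a) ∧
      ∀ a, a ∈ F ↔ a ∈ A ∧ pr u a = 0

/-- **GLA** (medium; uses RRZ RRS BSE KHO). Algebraically closed fields.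
Proof. `RR ι I A ∅` holds: `RR ι I A Iᶜ` by RRZ, then remove the elements of `Iᶜ` from the dead set one by one (RRS, induction on the dead set `D ⊆ Iᶜ`). With `s = 0`, `E = univ`, `i = 1` and a basis `T` of `A = f.coeff.support` (BSE): exactness in degree 1 for the `tht j f`, `j ∈ T` (`ix T 0` = the `inl j`, `j ∈ T`).
`a_i = ∑_(j ∈ T) c_ij a_j` on `A` (`c_ij` from `Bs` for `i ∈ I \ T`), so `tht i f = ∑_(j ∈ T) c_ij tht j f`. `0 = ∑_(i ∈ I) tht i f * x_i = ∑_(j ∈ T) tht j f * X_j`, `X_j = x_j + ∑_(i ∈ I \ T) c_ij x_i`. KHO: `X_j = ∑_(k ∈ T) tht k f * y j k`; put `y j k = 0` unless `j, k ∈ T`. Take `C = ι`, `z_i = x_i` and `v_i = e_i - ∑_(j ∈ T) c_ij e_j` for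
`i ∈ I \ T`, `z_i = 0`, `v_i = 0` for the other `i`: `x_j = X_j - ∑_i c_ij x_i` for `j ∈ T`, `x_i = z_i` for `i ∈ I \ T`; `v_i · a = a_i - ∑ c_ij a_j = 0`. -/
def GlaStmt : Prop :=
  ∀ (ι : Type) [Fintype ι] (K : Type) [Field K] [CharZero K] [IsAlgClosed K] (I : Finset ι)
    (f : Lr K ι) (κ : ι → ℤ) (N : ℤ) (v : ι → ℝ), Hgt I f.coeff.support κ N →
    (∀ F, IsF I f.coeff.support F → F.Nonempty → Ung Finset.univ I F f 0 fun _ => 0) →
    ∀ x : ι → Lr K ι, (∀ k ∈ I, x k ∈ MS K (RG I ∅ f.coeff.support v)) →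
      ∑ k ∈ I, tht k f * x k = 0 →
      ∃ (y : ι → ι → Lr K ι) (C : Type) (_ : Fintype C) (u : C → ι → ℚ) (z : C → Lr K ι),
        (∀ k l, y k l = - y l k) ∧
        (∀ k l, y k l ∈ MS K (RG I ∅ f.coeff.support v)) ∧
        (∀ c, z c ∈ MS K (RG I ∅ f.coeff.support v)) ∧ (∀ c i, i ∉ I → u c i = 0) ∧
        (∀ c, ∀ a ∈ f.coeff.support, pr (u c) a = 0) ∧
        ∀ k ∈ I, x k = ∑ l ∈ I, tht l f * y k l + ∑ c, cst ι ((u c k : ℚ) : K) * z c

/-- **GLF** (medium; uses GLA FCF). The output of block G.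
Proof. `K' = AlgebraicClosure K`. Translate: `thm f k h` is the coefficient function of `tht k f * h` (`AddMonoidAlgebra.ofCoeff`), `v = p - 1`, `pt p m = shv v m`, `RG I ∅ A v` is `Reg`. `NdC` gives `Ung univ I F f 0` for the nonempty faces `F` (FCF: `F` is cut out by a `u ≥ 0`; `fac f u` is `cut (ov I F) f`: for `m` in the
support, `m` is over `F` iff `pr u m = 0`, as `u` is zero off `I`); map the identity and `f`, `x k` to `K'` (coefficientwise ring homomorphism, the support of `f` does not change). GLA over `K'` gives `y`, `C`, `u`, `z` over `K'`; apply a `K`-linear map `ρ : K' → K` with `ρ 1 = 1` to all coefficients of `y` and `z` (it commutes with the products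
by `tht l f` and by rational constants, which have coefficients in `K`, and does not enlarge supports). -/
def GlfStmt : Prop := GLStmt

end Pool.Agent.NDR
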