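import Pool.Agent.NDR.StmtsL
import Pool.Agent.NDR.Defs

/-!
# Squad NDL (problem MP_b48657_ag), second part: real generic point and the output `LPBStmt`

`p` is now real and `ℚ`-generic (`Gen` of `NDR/Defs.lean`).  The rows GNB, LPA, DEG, GLU of `StmtsL.lean` are replaced by GNR, LPR, DGR, GLW.
-/

set_option autoImplicit false

namespace Pool.Agent.NDR

open Finset

/-- coordinate `i` of the real combination `∑ a ∈ A, μ a * a` -/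
noncomputable def cmbR {σ : Type} (A : Finset (σ →₀ ℕ)) (μ : (σ →₀ ℕ) → ℝ) (i : σ) : ℝ :=
  ∑ a ∈ A, μ a * (a i : ℝ)

/-- **FLT** (easy-medium; no hypotheses).  The vector `1_I` is a combination of the `a|_I`.
Proof.  `W = I → ℚ`, `S` = span of the restrictions of the `a ∈ A`.  If `1 ∉ S` there is a linear functional on `W` which vanishes on `S` and not at 1 (`Submodule.exists_le_ker_of_notMem`, `Submodule.exists_dual_map_eq_bot_of_notMem` or similar); its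
coefficients, extended by 0, are a vector `v` with `Off I v`, `dq v a = 0` on `A`, `∑ v ≠ 0`: contradiction.  `S` is the range of `l ↦ ∑ l a * a|_I` (`Submodule.mem_span_finset` or `Finsupp`). -/
def FltStmt : Prop := ∀ (σ : Type) [Fintype σ] (A : Finset (σ →₀ ℕ)) (I : Finset σ),
  (∀ v : σ → ℚ, Off I v → (∀ a ∈ A, dq v a = 0) → ∑ i, v i = 0) →
  ∃ l : (σ →₀ ℕ) → ℚ, ∀ i ∈ I, cmb A l i = 1

/-- **GNR** (medium-strong; no hypotheses; replaces GNB).  The real generic point.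
Proof.  Let `Δ` be the space of the `δ : A → ℚ` (extended by 0) with `cmb A δ i = 0` for `i ∈ Q`, `δ_1, ..., δ_r` a basis (or any finite generating family).  There are real `t_1, ..., t_r` such that `1, t_1, ..., t_r` are linearly independent over `ℚ`
(`ℝ` has infinite dimension over `ℚ`; or `t_j = τ ^ j`, `τ` transcendental) and, after division by a large integer, as small as we want.  `μ a = μ₁ a + ∑ t_j δ_j a`: `μ > 0`, `cmbR A μ = 1` on `Q`, `> 1` on `I - Q`, `∑ μ < ∑ μ₁ + γ`.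
Let `v` be rational, zero off `I`, and `v.(cmbR A μ) = r` rational: `(∑ v_i cmb A μ₁ i - r) + ∑_j t_j (∑_a δ_j a * dq v a) = 0`, so `∑_a δ_j a * dq v a = 0` for all `j`: the functional `δ ↦ ∑_a δ a * dq v a` vanishes on the common kernel `Δ` of the functionals
`δ ↦ cmb A δ i` (`i ∈ Q`), so it is a linear combination `∑_(i ∈ Q) w_i cmb A δ i` of them (`mem_span_of_iInf_ker_le_ker`); `δ = ` the indicator of `a` gives `dq v a = dq w a`. -/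
def GnrStmt : Prop := ∀ (σ : Type) [Fintype σ] (A : Finset (σ →₀ ℕ)) (I Q : Finset σ)
  (μ₁ : (σ →₀ ℕ) → ℚ) (γ : ℚ), 0 < γ → Q ⊆ I → (∀ a ∈ A, 0 < μ₁ a) →
  (∀ i ∈ Q, cmb A μ₁ i = 1) → (∀ i ∈ I, i ∉ Q → 1 < cmb A μ₁ i) →
  ∃ μ : (σ →₀ ℕ) → ℝ, (∀ a ∈ A, 0 < μ a) ∧ (∀ i ∈ Q, cmbR A μ i = 1) ∧
    (∀ i ∈ I, i ∉ Q → 1 < cmbR A μ i) ∧
    ∑ a ∈ A, μ a < ∑ a ∈ A, (μ₁ a : ℝ) + (γ : ℝ) ∧
    ∀ v : σ → ℚ, Off I v → (∃ r : ℚ, ∑ i, (v i : ℝ) * cmbR A μ i = r) →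
      ∃ w : σ → ℚ, (∀ i, w i ≠ 0 → i ∈ Q) ∧ ∀ a ∈ A, dq v a = dq w a

/-- **LPR** (easy-medium; uses LEX PPL GNR; replaces LPA).  The points `y` and `p = cmbR A μ`.
Proof.  Every `i ∈ I` occurs in some `b ∈ B` (`flat` for the indicator of `i`), so `y i ≤ 1` (`dq y b ≤ 1`).  `y` from LEX; `γ` = a third of the least of the positive numbers `1 - y k` (`k ∈ I`, `y k < 1`), `y k` (`y k > 0`) and 1.  `μ₀` from LEX,
`P = {y > 0} ⊆ I`, `Q`, `μ₁` from PPL, `μ` from GNR: `∑ μ < ∑ y + 3 γ`. -/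
def LprStmt : Prop := ∀ (σ : Type) [Fintype σ] (A B : Finset (σ →₀ ℕ)) (I : Finset σ),
  FlatD A B I → ∃ (y : σ → ℚ) (Q : Finset σ) (μ : (σ →₀ ℕ) → ℝ), DualY A I y ∧ (∀ k, y k ≤ 1) ∧
    (∀ i, 0 < y i → i ∈ Q) ∧ Q ⊆ I ∧ (∀ a ∈ A, 0 < μ a) ∧ (∀ i ∈ Q, cmbR A μ i = 1) ∧
    (∀ i ∈ I, 1 ≤ cmbR A μ i) ∧
    (∀ k ∈ I, y k < 1 → ∑ a ∈ A, μ a - ∑ i, (y i : ℝ) < 1 - (y k : ℝ)) ∧
    (∀ k, 0 < y k → ∑ a ∈ A, μ a - ∑ i, (y i : ℝ) < (y k : ℝ)) ∧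
    ∀ v : σ → ℚ, Off I v → (∃ r : ℚ, ∑ i, (v i : ℝ) * cmbR A μ i = r) →
      ∃ w : σ → ℚ, (∀ i, w i ≠ 0 → i ∈ Q) ∧ ∀ a ∈ A, dq v a = dq w a

/-- **DGR** (easy-medium; no hypotheses; replaces DEG).  The degree argument over `ℝ`.
Proof.  (1) `∑ i, y i * q i = ∑_a ν a * dq y a ≤ ∑ ν ≤ ∑ μ - 1` (`y` is zero off `I`).  Subtract `∑ y`: `∑_(i ≠ k, y i > 0) y i (q i - 1) + y k q k + (1 - y k) ≤ ∑ μ - ∑ y`, and all terms on the left are `≥ 0` (`q ≥ 0` on `I`).  If `y k < 1` this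
contradicts the first gap.  So `y k = 1`; if `q k ≠ 0` then `q k ≥ 1` (an integer), against the second gap for `k`; if `q i ≠ 1` for some `i ≠ k` with `y i > 0`, then `q i ≥ 2`, against the second gap for `i`.
(2) `1 ≥ dq y a ≥ y k * a k + y i * a i`. -/
def DgrStmt : Prop := ∀ (σ : Type) [Fintype σ] (A : Finset (σ →₀ ℕ)) (I : Finset σ) (y : σ → ℚ)
  (μ : (σ →₀ ℕ) → ℝ), DualY A I y → (∀ k, y k ≤ 1) →
  (∀ k ∈ I, y k < 1 → ∑ a ∈ A, μ a - ∑ i, (y i : ℝ) < 1 - (y k : ℝ)) →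
  (∀ k, 0 < y k → ∑ a ∈ A, μ a - ∑ i, (y i : ℝ) < (y k : ℝ)) → ∀ k ∈ I,
  (∀ (q : σ → ℝ) (ν : (σ →₀ ℕ) → ℝ), (∀ a ∈ A, 0 ≤ ν a) → (∀ i ∈ I, q i = cmbR A ν i) →
    ∑ a ∈ A, ν a ≤ ∑ a ∈ A, μ a - 1 → (∀ i, 0 < y i → ∃ z : ℤ, q i = z) →
    (∀ i, 0 < y i → i ≠ k → 1 ≤ q i) →
    y k = 1 ∧ q k = 0 ∧ ∀ i, 0 < y i → i ≠ k → q i = 1) ∧
  (y k = 1 → ∀ a ∈ A, a k ≠ 0 → a k = 1 ∧ ∀ i, 0 < y i → i ≠ k → a i = 0)

/-- **LPB** (medium-strong, assembly; uses MNF LPR DGR WSK FLT).  OUTPUT of the block: `LPBStmt` of `NDR/Defs.lean`.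
Proof.  MNF gives `κ'`, `N'`; `A = lev M κ' N'`, `I = sup κ'`.  `FlatD A B I`: `ht` with `κ'/N'`, `ind` from the integral independence (common denominator), `min` from MNF.  `GoodB B I`.  LPR: `y`, `Q`, `μ`; `p i = cmbR A μ i`,
`P = {y > 0}`, `K = {y = 1}`.  `Dat`: `flat` by FLT, `inC` with `l (cast α) = μ α` (`toZ` is the image under an injective map), `gen` from LPR (`w i ≠ 0` gives `i ∈ Q ⊆ I`, `p i = 1`).  Degree argument: `InC` gives `ν α = l (cast α)`;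
`∑ κ' i * pt p m i = N' ∑ ν`, `∑ κ' i * p i = N' ∑ μ` (`κ'` is zero off `I`), so `∑ ν = ∑ μ - 1`; for `y i > 0`, `pt p m i = m i`; DGR (1).  The exponents: DGR (2).  The rank: WSK. -/
def LpbRow : Prop := MnfStmt → LprStmt → DgrStmt → WskStmt → FltStmt → LPBStmt

open scoped Classical in
/-- **GLW** (medium; no hypotheses; replaces GLU).  The relation excluded by `BEZStmt`.
Proof.  For `k ∈ I`, `k ∉ K₀` we have `h k = 0`.  For `k ∈ K₀` the terms `α` of `thm` with `α k ≠ 0` have `α k = 1`, `α = e_k` on `P`, so all monomials `m + α` which occur in `thm (toL F) k (h k)` are `1` on `P`.  Choose `n` with `n - m₀ i + m i ≥ 0` for all `m` in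
the supports and all `i`; `h' k = ∑_(m ∈ supp (h k)) (h k m) X^(e m)`, `e m i = n - m₀ i + m i` outside `P`, `0` on `P`.  The linear map `single m r ↦ monomial (e m) r` sends the relation (all its monomials are `1` on `P`) to
`∏_(i ∉ P) X_i ^ n = ∑_(k ∈ K₀) g_k h'_k`, because `α.erase k` is `α` outside `P` and 0 on `P`. -/
def GlvStmt : Prop := ∀ (σ K : Type) [Field K] [Fintype σ] (F : MvPolynomial σ K)
  (I K₀ P : Finset σ) (m₀ : σ → ℤ) (h : σ → (σ → ℤ) →₀ K), K₀ ⊆ P → P ⊆ I →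
  (∀ i ∈ P, m₀ i = 1) →
  (∀ k ∈ K₀, ∀ α ∈ F.support, α k ≠ 0 → α k = 1 ∧ ∀ i ∈ P, i ≠ k → α i = 0) →
  (∀ k ∈ I, ∀ m ∈ (h k).support, k ∈ K₀ ∧ m k = 0 ∧ ∀ i ∈ P, i ≠ k → m i = 1) →
  ∑ k ∈ I, thm (toL F) k (h k) = Finsupp.single m₀ 1 →
  ∃ (n : ℕ) (h' : σ → MvPolynomial σ K),
    ∏ i ∈ Finset.univ.filter (fun i => i ∉ P), MvPolynomial.X i ^ n =
      ∑ k ∈ K₀, (∑ α ∈ F.support.filter (fun α => α k ≠ 0),
        MvPolynomial.monomial (α.erase k) (MvPolynomial.coeff α F)) * h' k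

end Pool.Agent.NDR
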