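import Pool.Agent.NDR.Defs

/-!
# Squad NDR, block P (helper60): the polyhedral part of the wall crossing

`A` is a finite set of exponents, `v` an ARBITRARY real shift; only the coordinates in `I` count.
The monomials `e` with `e + v` in the cone of `A` are the module; the monomials `e` with `e + v` in
the span of `A` are the torus. A generic interior vector `z` of the cone gives the time
`time e = least t ≥ 0 with e + v + t z in the cone`; each slice `time e = t > 0` is the module of a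
facet `A'` of `A` with another real shift (row WAL). No facet data, no dimension, induction on
`A.card` (`A'` is a proper subset of `A`).
-/

set_option autoImplicit false

namespace Pool.Agent.NDR

open Finset

section defs

variable {ι : Type}

/-- the coordinates `i ∈ I` of `q` are those of a vector of the real span of `A` -/
def InS (I : Finset ι) (A : Finset (ι → ℤ)) (q : ι → ℝ) : Prop :=
  ∃ l : (ι → ℤ) → ℝ, ∀ i ∈ I, q i = ∑ a ∈ A, l a * ((a i : ℤ) : ℝ)

/-- the real point `e + v` -/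
def shv (v : ι → ℝ) (e : ι → ℤ) : ι → ℝ := fun i => ((e i : ℤ) : ℝ) + v i

end defs

/-- **MWE** (medium; no hypotheses). Minkowski - Weyl with integer functionals, the same for all
ordered fields.
Proof. Induction on `A` (`Finset.induction_on`). `A = ∅`: the cone is `{q : q i = 0 for i ∈ I}`, take the `Pi.single i 1` and
`Pi.single i (-1)`, `i ∈ I`. Step `insert a A`, `a ∉ A`, `Ψ` for `A`: `q` is in the cone of `insert a A` iff there is `s ≥ 0` with `q - s a` in the cone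
of `A`, i.e. `s * (ψ·a) ≤ ψ·q` for all `ψ ∈ Ψ`. Take as new set: all `ψ ∈ Ψ` with `0 ≤ ψ·a`, and all `(ψ·a) ψ' - (ψ'·a) ψ` with `ψ, ψ' ∈ Ψ`, `0 < ψ·a`, `ψ'·a < 0`.
Necessity is clear. Sufficiency: for `ψ·a > 0` the condition is `s ≤ ψ·q / ψ·a`, for `ψ'·a < 0` it is `s ≥ ψ'·q / ψ'·a`; take `s` = maximum of `0` and of the finitely many lower bounds (`Finset.sup'` or induction);
all lower bounds are at most all upper bounds by the new functionals, and the upper bounds are `≥ 0`; for `ψ·a = 0` the condition is `0 ≤ ψ·q`.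
COROLLARY: a rational vector in the real cone of `A` is in its rational cone. -/
def MweStmt : Prop :=
  ∀ (ι : Type) [Fintype ι] (I : Finset ι) (A : Finset (ι → ℤ)),
    ∃ Ψ : Finset (ι → ℤ), (∀ ψ ∈ Ψ, ∀ i, i ∉ I → ψ i = 0) ∧
      ∀ (K : Type) [Field K] [LinearOrder K] [IsStrictOrderedRing K] (q : ι → K),
        (∃ l : (ι → ℤ) → K, (∀ a, 0 ≤ l a) ∧ ∀ i ∈ I, q i = ∑ a ∈ A, l a * ((a i : ℤ) : K)) ↔
          ∀ ψ ∈ Ψ, 0 ≤ ∑ i, ((ψ i : ℤ) : K) * q i

/-- **ZET** (medium; no hypotheses). Positive reals which are linearly independent over a given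
finite dimensional rational space of reals.
Proof. `L` = the `ℚ`-span of `1` and the `v i` is countable. Number the elements of `A` (`A.equivFin`), try `ζ a = t ^ (number of a)`, `t > 0`. For `c : A → L`, `c ≠ 0`, the
polynomial `∑ c_a X^(number of a)` is not zero, so it has finitely many roots; there are countably many `c`, so countably many bad `t`; choose `t ∈ (0, 1)` outside them (uncountable interval: `Set.Countable.ae_notMem`, or
`Cardinal.not_countable_real` / `Real.uncountable..` for `Set.Ioo`). For `a ∉ A` put `ζ a = 1`. -/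
def ZetStmt : Prop :=
  ∀ (ι : Type) [Fintype ι] (A : Finset (ι → ℤ)) (v : ι → ℝ), ∃ ζ : (ι → ℤ) → ℝ, (∀ a, 0 < ζ a) ∧
    ∀ c : (ι → ℤ) → ℝ, (∀ a ∈ A, c a ∈ Submodule.span ℚ (insert (1 : ℝ) (Set.range v))) →
      ∑ a ∈ A, ζ a * c a = 0 → ∀ a ∈ A, c a = 0

/-- **WAL** (medium-strong; uses MWE ZET). Wall crossing.
Proof. `Ψ` from MWE, `ζ` from ZET, `z = ∑ ζ_a a`, `Ψ₊ = {ψ ∈ Ψ : ψ·a > 0 for some a ∈ A}`; `ψ·a ≥ 0` for `ψ ∈ Ψ`, `a ∈ A`; so `ψ·z > 0` for `ψ ∈ Ψ₊`, and `ψ = 0` on `A` for the others.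
`time e = max (0, -ψ·(e + v) / ψ·z : ψ ∈ Ψ₊)`. For `e + v` in the span of `A` and real `s`: `e + v + s z` in the cone iff `ψ·(e+v) + s ψ·z ≥ 0` for `ψ ∈ Ψ₊` (the others vanish there); so (0), and (1) because `ψ·(e + a + v) ≥ ψ·(e + v)`.
(2) `time e₀ = t > 0`: some `ψ ∈ Ψ₊` has `ψ·(e₀ + v) + t ψ·z = 0`. Let `A' = {a ∈ A : ψ·a = 0}`, `v' = v + t z`. `y = e₀ + v'` is in the cone of `A`, `ψ·y = 0`, so it is in the cone of `A'` (the coefficients of the other `a` are `0`).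
(4) Let `χ` be rational, `χ = 0` on `A'`. Then `χ·y = 0`: with `c₀ = ψ·(e₀ + v)`, `c = χ·(e₀ + v)` (both in the `ℚ`-span of `1, v_i`): `c₀ = - t ψ·z ≠ 0`, `c = - t χ·z`, so `∑ ζ_a (c₀ χ·a - c ψ·a) = c₀ χ·z - c ψ·z = 0`. Here one needs coefficients in the span `L`:
divide by nothing, `c₀ χ·a - c ψ·a ∈ L` because `χ·a, ψ·a` are rational. By ZET `c₀ χ·a = c ψ·a` for all `a ∈ A`. There is `b ∈ A` with `ψ·b ≠ 0`; `l = χ·b / ψ·b` (rational): `c = c₀ l`, hence `χ·a = l ψ·a`.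
(5) If `time e = t` then `e + v'` is in the cone of `A'`: as above there is `ψ₁ ∈ Ψ₊` with `ψ₁·(e + v) + t ψ₁·z = 0`; `c₁ = ψ₁·(e + v)`, `c₀ ψ₁·z = c₁ ψ·z`, so by ZET `c₀ ψ₁·a = c₁ ψ·a` for `a ∈ A`, `c₀, c₁ < 0`: `ψ₁` and `ψ` vanish at the same `a ∈ A`; `e + v'` is in the cone of
`{a : ψ₁·a = 0} = A'`. Conversely let `e + v'` be in the cone of `A'`: `e + v` is in the span of `A` (subtract `t z`), `time e ≤ t`, and for `s < t`: `ψ·(e + v + s z) = - (t - s) ψ·z < 0`, so `time e = t`.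
(6) If `time e = t`, `a ∈ A`, `ψ·a > 0`, then `time (e + a) ≤ t` by (1), and `= t` is impossible because `ψ·(e + a + v') = ψ·a > 0` but `ψ = 0` on the cone of `A'`.
(3) the values `- ψ·(e + v) / ψ·z` are in the finitely many sets `{(n - ψ·v) / ψ·z : n ∈ ℤ}`, `ψ ∈ Ψ₊`, which have finitely many elements in `[0, t]`. -/
def WalStmt : Prop :=
  ∀ (ι : Type) [Fintype ι] (I : Finset ι) (A : Finset (ι → ℤ)) (v : ι → ℝ),
    ∃ time : (ι → ℤ) → ℝ,
      (∀ e, 0 ≤ time e) ∧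
      (∀ e, InS I A (shv v e) → (time e = 0 ↔ InC I A (shv v e))) ∧
      (∀ e, ∀ a ∈ A, time (e + a) ≤ time e) ∧
      (∀ t : ℝ, {s : ℝ | s ≤ t ∧ ∃ e, time e = s}.Finite) ∧
      ∀ e₀, InS I A (shv v e₀) → 0 < time e₀ →
        ∃ (ψ : ι → ℤ) (v' : ι → ℝ), (∀ i, i ∉ I → ψ i = 0) ∧ (∀ a ∈ A, 0 ≤ pr ψ a) ∧
          (∃ a ∈ A, 0 < pr ψ a) ∧
          (∀ e, (InS I A (shv v e) ∧ time e = time e₀) ↔
            InC I (A.filter fun a => pr ψ a = 0) (shv v' e)) ∧
          (∀ e, InS I A (shv v e) → time e = time e₀ → ∀ a ∈ A, 0 < pr ψ a →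
            time (e + a) < time e₀) ∧
          ∀ χ : ι → ℚ, (∀ i, i ∉ I → χ i = 0) → (∀ a ∈ A, pr ψ a = 0 → pr χ a = 0) →
            ∃ l : ℚ, ∀ a ∈ A, pr χ a = l * ((pr ψ a : ℤ) : ℚ)

end Pool.Agent.NDR
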