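import Pool.Agent.NDR.StmtsP

/-!
# Squad NDR, block P, second file (helper60): WalStmt with the locality of the time
-/

set_option autoImplicit false

namespace Pool.Agent.NDR

open Finset

/-- **WAM** (uses MWE ZET; same proof as WAL). `WalStmt` with the additional statement that `time e` only depends on the coordinates `e i`,
`i ∈ I` (all functionals `ψ` vanish outside `I`). -/
def WamStmt : Prop :=
  ∀ (ι : Type) [Fintype ι] (I : Finset ι) (A : Finset (ι → ℤ)) (v : ι → ℝ),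
    ∃ time : (ι → ℤ) → ℝ,
      (∀ e e', (∀ i ∈ I, e i = e' i) → time e = time e') ∧
      (∀ e, 0 ≤ time e) ∧
      (∀ e, InS I A (shv v e) → (time e = 0 ↔ InC I A (shv v e))) ∧
      (∀ e, ∀ a ∈ A, time (e + a) ≤ time e) ∧
      (∀ t : ℝ, {s : ℝ | s ≤ t ∧ ∃ e, time e = s}.Finite) ∧
      ∀ e₀, InS I A (shv v e₀) → 0 < time e₀ →
        ∃ (ψ : ι → ℤ) (v' : ι → ℝ), (∀ i, i ∉ I → ψ i = 0) ∧ (∀ a ∈ A, 0 ≤ pr ψ a) ∧
          (∃ a ∈ A, 0 < pr ψ a) ∧
          (∀ e, (InS I A (shv v e) ∧ time e = time e₀) ↔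
            InC I (A.filter fun a => pr ψ a = 0) (shv v' e)) ∧
          (∀ e, InS I A (shv v e) → time e = time e₀ → ∀ a ∈ A, 0 < pr ψ a →
            time (e + a) < time e₀) ∧
          ∀ χ : ι → ℚ, (∀ i, i ∉ I → χ i = 0) → (∀ a ∈ A, pr ψ a = 0 → pr χ a = 0) →
            ∃ l : ℚ, ∀ a ∈ A, pr χ a = l * ((pr ψ a : ℤ) : ℚ)

end Pool.Agent.NDR
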