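import Pool.Agent.NDR.Sys
import Pool.Agent.NDR.StmtsP

/-!
# Squad NDR, block R (helper56): threshold raising, projection to the face, descent

Monomials are LOG exponents `m` (the point of `m` is `q = pt p m = m - 1 + p`). `ih I` = coordinates
`I` and `z = none`. Only relations in top degree are used: `T = ∑_(v) B_v h_v` for families `h`,
with `h_v` filled: `m ∈ Fil P v` (`m_i ≥ 0` for `i ∈ P`, `m_i ≥ 1` if moreover `i ≠ v`).

PLAN. (CHO, helper85) gives a relation over `K'[ε]` with polynomial monomials. RAI, RAH raise all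
thresholds over the fraction field: relation in the cone of the exponents of `z f'` (CON describes
this cone). STR (helper22) with (H_J) from block G (row HJA; the diagonal condition is DGC) brings it
back to `K'[ε]`; put `ε = 0`; PRZ projects to `κ·m = N m_z` and eliminates `z`; DSC descends to `ℂ`;
STR with HJA, DGF at the face gives the relation of `RESStmt`.
-/

set_option autoImplicit false

namespace Pool.Agent.NDR

open Finset Pool.Agent.Helper30_Simp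

/-- **RAI** (medium; no hypotheses). Raising one threshold `θ` for the functional `l ≥ 0` on `A`.
PROOF. Use `Sys.lean`. If all `m` in the supports of the `h v` (`v ∈ I`) have `θ ≤ pr l m`, done. Otherwise let `n < θ` be the least value of `pr l m` there (finitely many `m`); we construct `h'` with the same `T`, the same conditions `X`, `Fil`
and all values `≥ n + 1`; then induction on `(θ - n).toNat`. Let `g v` be the part of `h v` of level `n` (`Finsupp.filter (fun m => pr l m = n)`), `s = n + ∑ l_v t_v ≠ 0`, `y v u = s⁻¹ • (l_u • g v - l_v • g u)` for `u, v ∈ I` (antisymmetric, `y v v = 0`),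
`h' v = h v - ∑_(u ∈ I) opB A c t u (y v u)` for all `v`. By `opB_anti` the sum `T` is the same.
(i) LEVELS. All levels of `h' v` are `≥ n` because `pr l a ≥ 0`. For `pr l m = n`: `(∑_u l_u opB_u (g v)) m = ∑_a (∑_u l_u a_u) c_a g_v(m - a) + (∑_u l_u (m_u + t_u)) g_v m = s g_v m`: the terms with `pr l a > 0` vanish since `m - a` has level `< n`, those with
`pr l a = 0` have the factor `∑_u l_u a_u = 0`. And `(∑_(u ∈ I) opB_u (g u)) m = (∑_(u ∈ I) opB_u (h u)) m = T m = 0` because `h u - g u` has levels `> n` and `n < θ`. So `(∑_(u ∈ I) opB_u (y v u)) m = g_v m = h_v m` for `v ∈ I`, `h' v m = 0`.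
(ii) SUPPORTS. `X` is closed under adding `a ∈ A`. `Fil P v` for the monomials of `opB_u (g v)`: clear (`a_i ≥ 0`). For the monomials `m` of `opB_u (g u)`, `u ≠ v`: `m = m' + a` with `a_u ≠ 0` in the field or `m = m'` with `m_u + t_u ≠ 0`, `m' ∈ Fil P u`. For `i ∈ P`, `i ≠ u`: `m'_i ≥ 1`. For `i = u ∈ P`:
`a_u ≥ 1`, or `t_u = 0` and `m_u ≠ 0`, so `m_u ≥ 1`. For `u = v` the coefficient `y v v` is `0`. -/
def RaiStmt : Prop :=
  ∀ (τ : Type) [Fintype τ] (L : Type) [Field L] (A : Finset (τ → ℤ)) (c : (τ → ℤ) → L)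
    (t : τ → L) (I P : Finset τ) (X : Set (τ → ℤ)) (l : τ → ℤ) (θ : ℤ),
    P ⊆ I → (∀ i ∈ P, t i = 0) → (∀ a ∈ A, ∀ i ∈ P, 0 ≤ a i) →
    (∀ m ∈ X, ∀ a ∈ A, m + a ∈ X) → (∀ v, v ∉ I → l v = 0) → (∀ a ∈ A, 0 ≤ pr l a) →
    (∀ n : ℤ, n < θ → (n : L) + ∑ v, ((l v : ℤ) : L) * t v ≠ 0) →
    ∀ (T : (τ → ℤ) →₀ L) (h : τ → (τ → ℤ) →₀ L),
      T = ∑ v ∈ I, opB A c t v (h v) → (∀ m ∈ T.support, θ ≤ pr l m) →
      (∀ v ∈ I, ∀ m ∈ (h v).support, m ∈ X ∧ m ∈ Fil P v) →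
      ∃ h' : τ → (τ → ℤ) →₀ L, T = ∑ v ∈ I, opB A c t v (h' v) ∧
        ∀ v ∈ I, ∀ m ∈ (h' v).support, m ∈ X ∧ m ∈ Fil P v ∧ θ ≤ pr l m

/-- **RAH** (easy; uses RAI). Raising finitely many thresholds.
PROOF. Induction on `H` (`Finset.induction_on`); in the step for `insert l H` apply RAI with
`X' = X ∩ {m | ∀ l' ∈ H, θ l' ≤ pr l' m}`, which is closed under adding `a ∈ A`. -/
def RahStmt : Prop :=
  ∀ (τ : Type) [Fintype τ] (L : Type) [Field L] (A : Finset (τ → ℤ)) (c : (τ → ℤ) → L)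
    (t : τ → L) (I P : Finset τ) (X : Set (τ → ℤ)) (H : Finset (τ → ℤ)) (θ : (τ → ℤ) → ℤ),
    P ⊆ I → (∀ i ∈ P, t i = 0) → (∀ a ∈ A, ∀ i ∈ P, 0 ≤ a i) →
    (∀ m ∈ X, ∀ a ∈ A, m + a ∈ X) → (∀ l ∈ H, ∀ v, v ∉ I → l v = 0) →
    (∀ l ∈ H, ∀ a ∈ A, 0 ≤ pr l a) →
    (∀ l ∈ H, ∀ n : ℤ, n < θ l → (n : L) + ∑ v, ((l v : ℤ) : L) * t v ≠ 0) →
    ∀ (T : (τ → ℤ) →₀ L) (h : τ → (τ → ℤ) →₀ L),
      T = ∑ v ∈ I, opB A c t v (h v) → (∀ l ∈ H, ∀ m ∈ T.support, θ l ≤ pr l m) →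
      (∀ v ∈ I, ∀ m ∈ (h v).support, m ∈ X ∧ m ∈ Fil P v) →
      ∃ h' : τ → (τ → ℤ) →₀ L, T = ∑ v ∈ I, opB A c t v (h' v) ∧
        ∀ v ∈ I, ∀ m ∈ (h' v).support, m ∈ X ∧ m ∈ Fil P v ∧ ∀ l ∈ H, θ l ≤ pr l m

/-- **CON** (easy-medium; uses MWE). The cone of the exponents of `z f'`, `f'` containing the powers `x_i^L`, `i ∈ I`: coordinates and functionals with `l_z ≠ 0`.
PROOF. `Ψ` from MWE for `ι = Option σ`, `I := ih I`, `H = {ψ ∈ Ψ : ψ none ≠ 0}`. `0 ≤ pr ψ a` for `ψ ∈ Ψ`, `a ∈ A`: MWE for `K = ℝ` (or `ℚ`), `q = a`, `l = Pi.single a 1`. (⇒): coordinates: sum of `l a * a (some i) ≥ 0`; functionals: MWE. (⇐): let `ψ ∈ Ψ`, `ψ none = 0`.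
For `i ∈ I` and the given exponent `a` of `x_i^L z`: `0 ≤ pr ψ a = L ψ_i` (`ψ` vanishes off `ih I`), so `ψ_i ≥ 0` and `∑ ψ_v x_v = ∑_(i ∈ I) ψ_i x_i ≥ 0`. -/
def ConStmt : Prop :=
  ∀ (σ : Type) [Fintype σ] (I : Finset σ) (A : Finset (Option σ → ℤ)) (L : ℕ), 0 < L →
    (∀ a ∈ A, ∀ i ∈ I, 0 ≤ a (some i)) →
    (∀ i ∈ I, ∃ a ∈ A, a (some i) = L ∧ ∀ j ∈ I, j ≠ i → a (some j) = 0) →
    ∃ H : Finset (Option σ → ℤ),
      (∀ l ∈ H, l none ≠ 0 ∧ (∀ v, v ∉ ih I → l v = 0) ∧ ∀ a ∈ A, 0 ≤ pr l a) ∧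
      ∀ x : Option σ → ℝ, InC (ih I) A x ↔
        ((∀ i ∈ I, 0 ≤ x (some i)) ∧ ∀ l ∈ H, 0 ≤ ∑ v, ((l v : ℤ) : ℝ) * x v)

/-- **DLT** (easy; no hypotheses). A generic small `δ`.
PROOF. Each pair `l : τ → ℤ` with `l z ≠ 0`, `n : ℤ` excludes one `δ`; these pairs are countable (`Countable (τ → ℤ)`, `τ` finite), so countably many `δ` are excluded, and the interval `(0, δ₀)` is not countable
(`Cardinal.Real.Ioo_countable_iff`, or `Set.Countable.dense_compl`). -/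
def DltStmt : Prop :=
  ∀ (τ : Type) [Fintype τ] (z : τ) (x : τ → ℝ) (δ₀ : ℝ), 0 < δ₀ →
    ∃ δ : ℝ, 0 < δ ∧ δ < δ₀ ∧ ∀ l : τ → ℤ, l z ≠ 0 →
      ∀ n : ℤ, ∑ v, ((l v : ℤ) : ℝ) * x v - ((l z : ℤ) : ℝ) * δ ≠ n

/-- **DGC** (medium; no hypotheses). The rational vectors orthogonal to a face of filled coordinates of the big cone are supported on these coordinates.
PROOF. `q = pt p m`: `q_i = 0` for `i ∈ J`, `l · q > 0` for `l ∈ H`. Let `i ∈ ih I`, `i ∉ J` (for `i ∉ ih I` we know `v i = 0`). For small `η > 0` the point `x = q + η e_i` is in the cone (description `hH`: coordinates `some j`, `j ∈ I`, do not decrease; the finitely many `l · q > 0` stay positive) and `x_j = 0` for `j ∈ J`.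
A point `x = ∑ μ_a a` (coordinates `ih I`) of the cone with `x_j = 0`, `j ∈ J`, has `μ_a a_j = 0` for all `a ∈ A`, `j ∈ J` (all terms are `≥ 0`, `j = some j'`, `j' ∈ I`), so only `a` with `a_J = 0` occur and `v · x = ∑ μ_a (v · a) = 0`. The same for `q`. Hence `η v_i = v · x - v · q = 0`. -/
def DgcStmt : Prop :=
  ∀ (σ : Type) [Fintype σ] (I : Finset σ) (A H : Finset (Option σ → ℤ)) (p : Option σ → ℝ)
    (J : Finset (Option σ)) (m : Option σ → ℤ) (v : Option σ → ℚ),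
    (∀ x : Option σ → ℝ, InC (ih I) A x ↔
      ((∀ i ∈ I, 0 ≤ x (some i)) ∧ ∀ l ∈ H, 0 ≤ ∑ v, ((l v : ℤ) : ℝ) * x v)) →
    (∀ a ∈ A, ∀ i ∈ I, 0 ≤ a (some i)) → J ⊆ ih I → none ∉ J → (∀ i ∈ J, p i = 1) →
    InC (ih I) A (pt p m) → (∀ l ∈ H, ∑ v, ((l v : ℤ) : ℝ) * pt p m v ≠ 0) →
    (∀ i ∈ J, m i = 0) → (∀ i, i ∉ ih I → v i = 0) →
    (∀ a ∈ A, (∀ i ∈ J, a i = 0) → pr v a = 0) → ∀ i, i ∉ J → v i = 0

/-- **Output of block G as it is used here**: `GLStmt` over algebraically closed fields. -/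
def GlrStmt : Prop :=
  ∀ (ι : Type) [Fintype ι] (K : Type) [Field K] [CharZero K] [IsAlgClosed K] (I : Finset ι)
    (f : (ι → ℤ) →₀ K) (κ : ι → ℤ) (N : ℤ) (p : ι → ℝ), 0 < N → (∀ i, i ∉ I → κ i = 0) →
    (∀ a ∈ f.support, pr κ a = N) → NdC I f →
    ∀ x : ι → (ι → ℤ) →₀ K, (∀ k ∈ I, Reg I f.support p (x k)) →
      ∑ k ∈ I, thm f k (x k) = 0 →
      ∃ (y : ι → ι → (ι → ℤ) →₀ K) (C : Type) (_ : Fintype C) (v : C → ι → ℚ)
        (z : C → (ι → ℤ) →₀ K),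
        (∀ k l, y k l = - y l k) ∧ (∀ k l, Reg I f.support p (y k l)) ∧
        (∀ c, Reg I f.support p (z c)) ∧ (∀ c i, i ∉ I → v c i = 0) ∧
        (∀ c, ∀ a ∈ f.support, pr (v c) a = 0) ∧
        ∀ k ∈ I, x k = ∑ l ∈ I, thm f l (y k l) + ∑ c, ((v c k : ℚ) : K) • z c

open scoped Classical in
/-- **HJA** (medium; uses GLR = `GlrStmt`; reserved for helper22). The hypothesis (H_J) of the strictness lemma from block G.
PROOF. `A_J = {a ∈ supp f : a_i = 0 for i ∈ J}`, `f_J = f.filter` on it. Apply `GlrStmt` to `f_J` (same `κ`, `N`, `p`). `NdC I f_J`: let `u` be a weight with `u = 0` off `I`, `u · a ≥ 0` on `supp f_J`, with a zero there. `u' = u + C ∑_(i ∈ J) e_i`, `C` a large natural: on `supp f`: `u' · a ≥ 0`, and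
`u' · a = 0` iff `a_J = 0` and `u · a = 0` (all `a_i ≥ 0`, `i ∈ J ⊆ P`; if `a_J ≠ 0` then `∑_J a_i ≥ 1`), so `fac f_J u = fac f u'`. Regions: for `m` with `m_J = 0`, `pt p m = m - 1 + p` has the coordinates `m_i = 0` for `i ∈ J` (`p_i = 1`), and a point `∑ l_a a` of the cone of `supp f` with `q_J = 0` has
`l_a = 0` or `a ∈ A_J`; so it is in the cone of `A_J`; conversely the cone of `A_J` is contained in the cone of `supp f` and has `q_J = 0`. `GlrStmt` gives `y, C, v, z`; put `w i m = ∑_c v_c(i) z_c(m)`. `thm f_J k x = opA A_J f k x` (`thm_eq`; on `A_J` the coefficients of `f_J` are those of `f`).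
The last condition: `∑_(v ∈ I) w_v(m) (m'_v + t_v) = ∑_c z_c(m) ∑_(i ∈ I) v_c(i) (m'_i + t_i) = 0` by the diagonal hypothesis for `v_c` (for `m'` with `m'_J = 0`). -/
def HjaStmt : Prop :=
  ∀ (τ : Type) [Fintype τ] (K : Type) [Field K] [CharZero K] [IsAlgClosed K] (R : Type)
    [CommRing R] [Algebra K R] (I P : Finset τ) (f : (τ → ℤ) →₀ K) (κ : τ → ℤ) (N : ℤ) (p : τ → ℝ)
    (t : τ → R), 0 < N → (∀ i, i ∉ I → κ i = 0) → (∀ a ∈ f.support, pr κ a = N) → NdC I f →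
    P ⊆ I → (∀ i ∈ P, p i = 1) → (∀ a ∈ f.support, ∀ i ∈ P, 0 ≤ a i) →
    (∀ J ⊆ P, ∀ m : τ → ℤ, InC I f.support (pt p m) → (∀ i ∈ J, m i = 0) →
      ∀ v : τ → ℚ, (∀ i, i ∉ I → v i = 0) →
        (∀ a ∈ f.support, (∀ i ∈ J, a i = 0) → pr v a = 0) →
        ∑ i ∈ I, algebraMap K R ((v i : ℚ) : K) * (((m i : ℤ) : R) + t i) = 0) →
    ∀ J ⊆ P, ∀ x : τ → (τ → ℤ) →₀ K,
      (∀ k ∈ I, ∀ m ∈ (x k).support, InC I f.support (pt p m) ∧ ∀ i ∈ J, m i = 0) →
      ∑ k ∈ I, opA (f.support.filter fun a => ∀ i ∈ J, a i = 0) f k (x k) = 0 →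
      ∃ (y : τ → τ → (τ → ℤ) →₀ K) (w : τ → (τ → ℤ) →₀ K),
        (∀ k l, y k l = - y l k) ∧
        (∀ k l, ∀ m ∈ (y k l).support, InC I f.support (pt p m) ∧ ∀ i ∈ J, m i = 0) ∧
        (∀ k, ∀ m ∈ (w k).support, InC I f.support (pt p m) ∧ ∀ i ∈ J, m i = 0) ∧
        (∀ k ∈ I, x k = ∑ l ∈ I, opA (f.support.filter fun a => ∀ i ∈ J, a i = 0) f l (y k l) +
          w k) ∧
        (∀ m, ∀ a ∈ f.support, (∀ i ∈ J, a i = 0) → ∑ k ∈ I, w k m * ((a k : ℤ) : K) = 0) ∧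
        ∀ m m' : τ → ℤ, InC I f.support (pt p m') → (∀ i ∈ J, m' i = 0) →
          ∑ k ∈ I, algebraMap K R (w k m) * (((m' k : ℤ) : R) + t k) = 0

/-- **DGF** (medium; no hypotheses). The diagonal condition at the flat face (3922 (II)).
PROOF. `A' = lev M κ N`, `q = pt p m = ∑ l_a a` on `I = sup κ` (`l ≥ 0`, `a ∈ toZ A'`); `q_i = m_i = 0` for `i ∈ J` and `a_i ≥ 0`, so `l_a = 0` or `a_J = 0`; hence `∑ v_i q_i = 0` (real). So `∑ v_i p_i = ∑ v_i (1 - m_i)` is rational and `Gen` (field `gen` of `Dat`) gives `w` with `w_i ≠ 0 → i ∈ I, p_i = 1` and `v · α = w · α` for `α ∈ A'`.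
`v · p = w · p = ∑ w_i` (field `inC`: `p` on `I` is a real combination of the `α ∈ A'`; `v, w` vanish off `I`), `∑ v_i = ∑_i v_i ∑_α l_α α_i = ∑_α l_α (v · α) = ∑_α l_α (w · α) = ∑ w_i` (field `flat`). So `∑ v_i (1 - p_i) = 0` and `∑ v_i m_i = ∑ v_i q_i + ∑ v_i (1 - p_i) = 0`. -/
def DgfStmt : Prop :=
  ∀ (σ : Type) [Fintype σ] (M : Finset (σ →₀ ℕ)) (κ : σ → ℕ) (N : ℕ) (P : Finset σ)
    (p : σ → ℝ), Dat M κ N P p → ∀ J ⊆ P, ∀ m : σ → ℤ,
    InC (sup κ) (toZ (lev M κ N)) (pt p m) → (∀ i ∈ J, m i = 0) →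
    ∀ v : σ → ℚ, (∀ i, i ∉ sup κ → v i = 0) →
      (∀ a ∈ toZ (lev M κ N), (∀ i ∈ J, a i = 0) → pr v a = 0) →
      ∑ i, v i * ((m i : ℤ) : ℚ) = 0

/-- the exponents of `x` in `z f'` which lie on the level `κ · a = N` -/
noncomputable def fcA {σ : Type} [Fintype σ] (A : Finset (Option σ → ℤ)) (κ : σ → ℕ) (N : ℕ) :
    Finset (σ → ℤ) := by
  classical
  exact (A.filter fun a => ∑ i, (κ i : ℤ) * a (some i) = N).image fun a i => a (some i)

/-- the exponent of `x^a z` -/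
def hx {σ : Type} (k : ℤ) (a : σ → ℤ) : Option σ → ℤ := fun v => v.elim k a

/-- the level `κ · (m - 1) - N m_z` of a monomial -/
def klv {σ : Type} [Fintype σ] (κ : σ → ℕ) (N : ℕ) (m : Option σ → ℤ) : ℤ :=
  ∑ i, (κ i : ℤ) * (m (some i) - 1) - N * m none

/-- **PRZ** (medium; no hypotheses). Projection to the level `κ · (m - 1) = N m_z` and elimination of `z`.
PROOF. `I = sup κ`, `U = {m : klv κ N m = 0}`, `π` = restriction of `h` to `U` (`Finsupp.filter`). For `h` with levels `≥ 0`: `π (opB A c t v h) = opB A₀ c t v (π h)`, `A₀ = {a ∈ A : κ · a = N}` (`klv (m + a) = klv m + (κ · a - N)`, `a none = 1`, `κ · a ≥ N`). `one1 I ∈ U`, and `π X = 0`. So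
(1) `single (one1 I) β = ∑_(v ∈ ih I) opB A₀ c t v (g v)`, `g v = π (h v)`. (2) Euler: for `g` supported in `U`: `∑_(i ∈ I) κ_i opB A₀ c t (some i) g = N • opB A₀ c t none g`: exponents: `∑ κ_i a_i = N = N a_none`; diagonal: `∑_(i ∈ I) κ_i m_i = N m_none + ∑ κ_i = N (m_none + t_none)` because `N t_none = ∑ κ_i` (`κ_i = 0` off `I`).
So `single (one1 I) β = ∑_(i ∈ I) opB A₀ c t (some i) (g' i)`, `g' i = g (some i) + (κ_i / N) • g none`. (3) On `U` the exponent `m_none` is determined by the others: the map `m ↦ m ∘ some` is injective on `U`, and `h' i` = the push forward of `g' i` under it (`Finsupp.mapDomain`). Evaluate both sides at `m : σ → ℤ`: if `N` divides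
`∑ κ_i (m_i - 1)` there is a unique lift of `m` to `U` (`hx k m`), and `m - a`, `a ∈ fcA A κ N`, has the lift minus `hx 1 a`; otherwise all terms vanish. `Fil`: the supports of `h none` are in `Fil P' none ⊆ Fil P' (some i)`. -/
def PrzStmt : Prop :=
  ∀ (σ : Type) [Fintype σ] (K : Type) [Field K] [CharZero K] (A : Finset (Option σ → ℤ))
    (c : (Option σ → ℤ) → K) (t : Option σ → K) (κ : σ → ℕ) (N : ℕ) (P : Finset σ) (β : K)
    (X : (Option σ → ℤ) →₀ K) (h : Option σ → (Option σ → ℤ) →₀ K), 0 < N → P ⊆ sup κ →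
    (∀ i, t (some i) = 0) → (N : K) * t none = ((∑ i, κ i : ℕ) : K) →
    (∀ a ∈ A, a none = 1 ∧ (N : ℤ) ≤ ∑ i, (κ i : ℤ) * a (some i)) →
    Finsupp.single (one1 (sup κ)) β + X = ∑ v ∈ ih (sup κ), opB A c t v (h v) →
    (∀ m ∈ X.support, 0 < klv κ N m) →
    (∀ v ∈ ih (sup κ), ∀ m ∈ (h v).support, 0 ≤ klv κ N m ∧
      m ∈ Fil (P.map Function.Embedding.some) v) →
    ∃ h' : σ → (σ → ℤ) →₀ K,
      Finsupp.single (fun i => if κ i = 0 then 0 else 1) β =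
        ∑ i ∈ sup κ, opB (fcA A κ N) (fun a => c (hx 1 a)) 0 i (h' i) ∧
      ∀ i ∈ sup κ, ∀ m ∈ (h' i).support, m ∈ Fil P i ∧ ∃ k : ℤ, klv κ N (hx k m) = 0 ∧
        ∃ v ∈ ih (sup κ), hx k m ∈ (h v).support

/-- **DSC** (easy; no hypotheses). Descent of a relation with coefficients in the subfield `k` (shifts in the prime field, here `0`).
PROOF. `π : K →ₗ[k] k` with `π 1 = 1` (a left inverse of `algebraMap k K`: `LinearMap.exists_leftInverse_of_injective` for `Algebra.linearMap k K`), `h' v = (h v).mapRange π`. Evaluate at `m` with `opB_apply`: `π (algebraMap (c a) * a_v * h_v(m - a)) = c a * a_v * π (h_v(m - a))`. The supports do not grow. -/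
def DscStmt : Prop :=
  ∀ (τ k K : Type) [Field k] [Field K] [Algebra k K] (A : Finset (τ → ℤ)) (c : (τ → ℤ) → k)
    (I : Finset τ) (m₀ : τ → ℤ) (β : k) (h : τ → (τ → ℤ) →₀ K),
    Finsupp.single m₀ (algebraMap k K β) =
      ∑ v ∈ I, opB A (fun a => algebraMap k K (c a)) 0 v (h v) →
    ∃ h' : τ → (τ → ℤ) →₀ k, Finsupp.single m₀ β = ∑ v ∈ I, opB A c 0 v (h' v) ∧
      ∀ v, (h' v).support ⊆ (h v).support

/-- **NDP** (medium; no hypotheses). The faces of the flat face polynomial are smooth: `NdC` for `f_φ`.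
PROOF. `M = F.support`, `A' = lev M κ N`, `g = toL (prt F A')`, whose support is `toZ A'` (`α ↦ (α i : ℤ)` is injective, coefficients `≠ 0`), `g (α : ℤ) = coeff α F`. Let `u : σ → ℤ` vanish off `I = sup κ`, `u · a ≥ 0` on `A'`, with a zero. For a large natural `C` the weight `w = C κ + u` is `≥ 0` (`κ_i ≥ 1` on `I`, `0` off `I`), and its minimum on `M` is
`C N`, attained exactly at the `α ∈ A'` with `u · α = 0`: for `α ∈ M \ A'`, `κ · α ≥ N + 1` and `C + u · α > 0`. So the hypothesis for `w` says that `G = ∑_(α ∈ A', u·α = 0) coeff α F x^α` is `TorusSmooth`: `(∏ x_i)^n = a G + ∑_j b_j ∂_j G` for polynomials `a, b_j` (`Ideal.mem_radical_iff`, `Submodule.mem_span` of a finite set).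
Pass to Laurent polynomials (ring structure of `AddMonoidAlgebra`, or directly with `thm`: `thm f k` is linear in its argument and `thm f k (single e d)` is explicit): `∂_j G = x_j^(-1) θ_j G`, and `G = N^(-1) ∑ κ_j θ_j G` (Euler, `κ · α = N`). Hence `1 = ∑_j θ_j G g_j` with `g_j = x^(-n) (N^(-1) κ_j a + x_j^(-1) b_j)`, and `fac g u` is `G` as a Laurent polynomial. -/
def NdpStmt : Prop :=
  ∀ (σ : Type) [Fintype σ] (F : MvPolynomial σ ℂ) (κ : σ → ℕ) (N : ℕ),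
    (∀ u : σ → ℕ, TorusSmooth (prt F (fcn F.support u))) → 0 < N →
    (∀ α ∈ F.support, N ≤ dot κ α) → NdC (sup κ) (toL (prt F (lev F.support κ N)))

end Pool.Agent.NDR
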